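import Pool.Agent.H9.Criterion

/-!
# Property (T) for groups generated by subgroups of prime order in Heisenberg position
-/

namespace Pool.Agent.H9.Criterion

open scoped InnerProductSpace

section Rep

variable {G : Type*} [Group G] {H : Type*} [NormedAddCommGroup H] [InnerProductSpace ℂ H]
  [CompleteSpace H] (ρ : G →* unitary (H →L[ℂ] H))

/-- the operator of `g` -/
noncomputable def U (g : G) : H →L[ℂ] H := (ρ g : H →L[ℂ] H)

theorem U_one : U ρ 1 = 1 := by simp [U]

theorem U_mul (g h : G) (x : H) : U ρ (g * h) x = U ρ g (U ρ h x) := by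
  simp [U]

theorem U_inv_apply (g : G) (x : H) : U ρ g⁻¹ (U ρ g x) = x := by
  rw [← U_mul, inv_mul_cancel, U_one]
  rfl

theorem U_apply_inv (g : G) (x : H) : U ρ g (U ρ g⁻¹ x) = x := by
  rw [← U_mul, mul_inv_cancel, U_one]
  rfl

theorem inner_U (g : G) (x y : H) : ⟪U ρ g x, U ρ g y⟫_ℂ = ⟪x, y⟫_ℂ := by
  have h := Unitary.star_mul_self_of_mem (ρ g).2
  rw [ContinuousLinearMap.star_eq_adjoint] at h
  have h2 : (ContinuousLinearMap.adjoint (U ρ g)) (U ρ g y) = y :=
    congrArg (fun T : H →L[ℂ] H => T y) h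
  rw [← ContinuousLinearMap.adjoint_inner_right, h2]

theorem inner_U_left (g : G) (x y : H) : ⟪U ρ g x, y⟫_ℂ = ⟪x, U ρ g⁻¹ y⟫_ℂ := by
  rw [← inner_U ρ g x, U_apply_inv]

variable {p : ℕ} [Fact p.Prime]

/-- average over a subgroup -/
noncomputable def avg (u : ZMod p → G) : H →L[ℂ] H := (p : ℂ)⁻¹ • ∑ a, U ρ (u a)

theorem avg_apply (u : ZMod p → G) (x : H) : avg ρ u x = (p : ℂ)⁻¹ • ∑ a, U ρ (u a) x := by
  simp [avg]

variable {u v z : ZMod p → G}

theorem add_zero_eq (hu : ∀ a b, u (a + b) = u a * u b) : u 0 = 1 := by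
  have := hu 0 0
  rw [add_zero] at this
  exact mul_eq_left.mp this.symm

theorem add_neg_eq (hu : ∀ a b, u (a + b) = u a * u b) (a : ZMod p) : u (-a) = (u a)⁻¹ := by
  apply eq_inv_of_mul_eq_one_left
  rw [← hu, neg_add_cancel, add_zero_eq hu]

theorem p_ne_zero : (p : ℂ) ≠ 0 := by
  have := (Fact.out : p.Prime).ne_zero
  exact_mod_cast this

theorem U_avg (hu : ∀ a b, u (a + b) = u a * u b) (b : ZMod p) (x : H) :
    U ρ (u b) (avg ρ u x) = avg ρ u x := by
  rw [avg_apply, map_smul, map_sum]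
  congr 1
  simp only [← U_mul, ← hu]
  exact Fintype.sum_equiv (Equiv.addLeft b) _ _ fun a => rfl

theorem avg_U (hu : ∀ a b, u (a + b) = u a * u b) (b : ZMod p) (x : H) :
    avg ρ u (U ρ (u b) x) = avg ρ u x := by
  rw [avg_apply, avg_apply]
  congr 1
  simp only [← U_mul, ← hu]
  exact Fintype.sum_equiv (Equiv.addRight b) _ _ fun a => rfl

theorem avg_of_fixed {x : H} (hx : ∀ a, U ρ (u a) x = x) : avg ρ u x = x := by
  rw [avg_apply]
  simp only [hx, Finset.sum_const, Finset.card_univ, ZMod.card]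
  rw [← Nat.cast_smul_eq_nsmul ℂ, smul_smul, inv_mul_cancel₀ p_ne_zero, one_smul]

theorem avg_isProj (hu : ∀ a b, u (a + b) = u a * u b) : IsProj (avg (H := H) ρ u) where
  idem x := avg_of_fixed ρ fun a => U_avg ρ hu a x
  symm x y := by
    rw [avg_apply, avg_apply, inner_smul_left, inner_smul_right, sum_inner, inner_sum]
    congr 1
    · simp
    · refine Fintype.sum_equiv (Equiv.neg _) _ _ fun a => ?_
      rw [inner_U_left, Equiv.neg_apply, add_neg_eq hu]

theorem avg_comm_U {w : G} (hw : ∀ a, u a * w = w * u a) (x : H) :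
    avg ρ u (U ρ w x) = U ρ w (avg ρ u x) := by
  rw [avg_apply, avg_apply, map_smul, map_sum]
  congr 1
  refine Finset.sum_congr rfl fun a _ => ?_
  rw [← U_mul, ← U_mul, hw]

theorem avg_comm_avg (hz : ∀ a b, u a * z b = z b * u a) (x : H) :
    avg ρ u (avg ρ z x) = avg ρ z (avg ρ u x) := by
  rw [avg_apply ρ z, avg_apply ρ z, map_smul, map_sum]
  congr 1
  refine Finset.sum_congr rfl fun b _ => ?_
  exact avg_comm_U ρ (fun a => hz a b) x

/-- The pair inequality for two subgroups of prime order in Heisenberg position. -/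
theorem pair_rep (hu : ∀ a b, u (a + b) = u a * u b) (hv : ∀ a b, v (a + b) = v a * v b)
    (hz : ∀ a b, z (a + b) = z a * z b) (huz : ∀ a b, u a * z b = z b * u a)
    (hvz : ∀ a b, v a * z b = z b * v a) (huv : ∀ a b, u a * v b = v b * u a * z (a * b))
    (x : H) :
    -(Real.sqrt p)⁻¹ * (‖(1 - avg ρ u) x‖ ^ 2 + ‖(1 - avg ρ v) x‖ ^ 2) ≤
      2 * (⟪(1 - avg ρ u) x, (1 - avg ρ v) x⟫_ℂ).re := by
  have hp1 : (1 : ℝ) < p := by exact_mod_cast (Fact.out : p.Prime).one_lt
  have hp0 : (0 : ℝ) < p := by linarith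
  have hsq : 1 < Real.sqrt p := by
    rw [Real.lt_sqrt zero_le_one]
    simpa using hp1
  refine pair_ineq (avg_isProj ρ hu) (avg_isProj ρ hv) (avg_isProj ρ hz) (by positivity)
    (inv_lt_one_of_one_lt₀ hsq) (avg_comm_avg ρ huz) (avg_comm_avg ρ hvz) ?_ ?_ x
  · -- commuting part
    intro y hy
    have hfix : ∀ c, U ρ (z c) y = y := by
      intro c
      rw [← hy]
      exact U_avg ρ hz c y
    have hc : ∀ a b, U ρ (u a) (U ρ (v b) y) = U ρ (v b) (U ρ (u a) y) := by
      intro a b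
      rw [← U_mul, huv, U_mul, U_mul, hfix]
    rw [avg_apply ρ v, map_smul, map_sum, avg_apply ρ v]
    congr 1
    refine Finset.sum_congr rfl fun b _ => ?_
    rw [avg_apply, avg_apply, map_smul, map_sum]
    congr 1
    exact Finset.sum_congr rfl fun a _ => hc a b
  · -- orthogonal part
    intro y hy
    have key : ∀ b, b ≠ 0 → avg ρ u (U ρ (v b) (avg ρ u y)) = 0 := by
      intro b hb
      have h1 : ∀ a, avg ρ u (U ρ (v b) (U ρ (u a) y)) =
          avg ρ u (U ρ (v b) (U ρ (z (-(a * b))) y)) := by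
        intro a
        have h2 : v b * u a = u a * (v b * z (-(a * b))) := by
          rw [add_neg_eq hz, ← mul_assoc, huv, mul_assoc, mul_inv_cancel, mul_one]
        rw [← U_mul ρ (v b), h2, U_mul, avg_U ρ hu, U_mul]
      have h3 : avg ρ u (U ρ (v b) (avg ρ u y)) =
          (p : ℂ)⁻¹ • ∑ a, avg ρ u (U ρ (v b) (U ρ (u a) y)) := by
        rw [avg_apply ρ u y, map_smul, map_sum, map_smul, map_sum]
      rw [h3]
      simp only [h1]
      have h4 : ∑ a, avg ρ u (U ρ (v b) (U ρ (z (-(a * b))) y)) =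
          ∑ a, avg ρ u (U ρ (v b) (U ρ (z a) y)) := by
        refine Fintype.sum_equiv ((Equiv.mulRight₀ b hb).trans (Equiv.neg _)) _ _ fun a => ?_
        simp
      have h5 : (p : ℂ)⁻¹ • ∑ a, avg ρ u (U ρ (v b) (U ρ (z a) y)) =
          avg ρ u (U ρ (v b) (avg ρ z y)) := by
        rw [avg_apply ρ z y, map_smul, map_sum, map_smul, map_sum]
      rw [h4, h5, hy, map_zero, map_zero]
    have h6 : avg ρ u (avg ρ v (avg ρ u y)) = (p : ℂ)⁻¹ • avg ρ u y := by
      rw [avg_apply ρ v, map_smul, map_sum, Finset.sum_eq_single 0]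
      · rw [add_zero_eq hv, U_one]
        congr 1
        exact (avg_isProj ρ hu).idem y
      · intro b _ hb
        exact key b hb
      · intro h
        exact absurd (Finset.mem_univ _) h
    have h7 : ‖avg ρ v (avg ρ u y)‖ ^ 2 = (p : ℝ)⁻¹ * ‖avg ρ u y‖ ^ 2 := by
      have h8 := (avg_isProj (H := H) ρ hv).inner_self (avg ρ u y)
      have h9 : ⟪avg ρ v (avg ρ u y), avg ρ u y⟫_ℂ = ⟪avg ρ u (avg ρ v (avg ρ u y)), y⟫_ℂ := by
        rw [(avg_isProj ρ hu).symm]
      rw [h9, h6, inner_smul_left, (avg_isProj ρ hu).inner_self] at h8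
      have h10 := congrArg Complex.re h8
      rw [Complex.ofReal_re] at h10
      rw [← h10]
      have : (starRingEnd ℂ) ((p : ℂ)⁻¹) = (((p : ℝ)⁻¹ : ℝ) : ℂ) := by
        simp
      rw [this, ← Complex.ofReal_mul, Complex.ofReal_re]
    rw [← sq_le_sq₀ (norm_nonneg _) (by positivity), h7, mul_pow, inv_pow,
      Real.sq_sqrt hp0.le]

end Rep

/-- **Criterion.** A group generated by `n` subgroups isomorphic to `ZMod p`, any two of which
commute or are in Heisenberg position, has property (T) if `(n - 1)^2 < p`. -/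
theorem kazhdan {G : Type} [Group G] {p : ℕ} [Fact p.Prime] {ι : Type} [Fintype ι] [Nonempty ι]
    (u : ι → ZMod p → G) (hu : ∀ i a b, u i (a + b) = u i a * u i b)
    (hgen : Subgroup.closure {g | ∃ i a, u i a = g} = ⊤)
    (hpair : ∀ i j, i ≠ j → ∃ z : ZMod p → G, (∀ a b, z (a + b) = z a * z b) ∧
      (∀ a b, u i a * z b = z b * u i a) ∧ (∀ a b, u j a * z b = z b * u j a) ∧
      (∀ a b, u i a * u j b = u j b * u i a * z (a * b)))
    (hcard : ((Fintype.card ι : ℝ) - 1) ^ 2 < p) :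
    ∃ (S : Finset G) (ε : ℝ), 0 < ε ∧
      ∀ (H : Type) [NormedAddCommGroup H] [InnerProductSpace ℂ H] [CompleteSpace H]
        (ρ : G →* unitary (H →L[ℂ] H)),
        (∃ x : H, ‖x‖ = 1 ∧ ∀ s ∈ S, ‖(ρ s : H →L[ℂ] H) x - x‖ < ε) →
        ∃ x : H, x ≠ 0 ∧ ∀ g : G, (ρ g : H →L[ℂ] H) x = x := by
  classical
  set n : ℝ := (Fintype.card ι : ℝ) with hn
  have hn1 : 1 ≤ n := by
    rw [hn]
    exact_mod_cast Fintype.card_pos
  have hp1 : (1 : ℝ) < p := by exact_mod_cast (Fact.out : p.Prime).one_lt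
  have hp0 : (0 : ℝ) < p := by linarith
  have hsq0 : 0 < Real.sqrt p := Real.sqrt_pos.mpr hp0
  set lam : ℝ := 1 - (n - 1) * (Real.sqrt p)⁻¹ with hlam
  have hlam0 : 0 < lam := by
    have h1 : n - 1 < Real.sqrt p := by
      rw [Real.lt_sqrt (by linarith)]
      exact hcard
    have h2 : (n - 1) * (Real.sqrt p)⁻¹ < 1 := by
      rw [← div_eq_mul_inv, div_lt_one hsq0]
      exact h1
    rw [hlam]
    linarith
  have hlam1 : lam ≤ n := by
    have : 0 ≤ (n - 1) * (Real.sqrt p)⁻¹ := mul_nonneg (by linarith) (by positivity)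
    rw [hlam]
    linarith
  set δ : ℝ := 1 - Real.sqrt (1 - lam / n) with hδ
  have hnpos : 0 < n := by linarith
  have hδ0 : 0 < δ := by
    have h1 : Real.sqrt (1 - lam / n) < 1 := by
      rw [Real.sqrt_lt' one_pos]
      have : 0 < lam / n := by positivity
      linarith
    rw [hδ]
    linarith
  refine ⟨Finset.image (fun q : ι × ZMod p => u q.1 q.2) Finset.univ, δ, hδ0, ?_⟩
  intro H _ _ _ ρ ⟨x, hx1, hx⟩
  have hQ : ∀ i, IsProj (1 - avg (H := H) ρ (u i)) := fun i => (avg_isProj ρ (hu i)).compl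
  have hgap : ∀ y, lam * en (fun i => 1 - avg (H := H) ρ (u i)) y ≤
      ‖lap (fun i => 1 - avg (H := H) ρ (u i)) y‖ ^ 2 := by
    intro y
    refine norm_lap_sq_ge (ε := (Real.sqrt p)⁻¹) ?_ y
    intro i j hij y
    obtain ⟨z, h1, h2, h3, h4⟩ := hpair i j hij
    exact pair_rep ρ (hu i) (hu j) h1 h2 h3 h4 y
  have hsmall : ∀ i, ‖(1 - avg ρ (u i)) x‖ < δ := by
    intro i
    have h1 : (1 - avg ρ (u i)) x = (p : ℂ)⁻¹ • ∑ a, (x - U ρ (u i a) x) := by
      rw [Finset.sum_sub_distrib, smul_sub, ← avg_apply]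
      have : (p : ℂ)⁻¹ • ∑ _a : ZMod p, x = x := by
        rw [Finset.sum_const, Finset.card_univ, ZMod.card, ← Nat.cast_smul_eq_nsmul ℂ, smul_smul,
          inv_mul_cancel₀ p_ne_zero, one_smul]
      rw [this]
      simp
    rw [h1, norm_smul, norm_inv, Complex.norm_natCast, inv_mul_lt_iff₀ hp0]
    calc ‖∑ a, (x - U ρ (u i a) x)‖ ≤ ∑ a, ‖x - U ρ (u i a) x‖ := norm_sum_le _ _
      _ < ∑ _a : ZMod p, δ := by
        apply Finset.sum_lt_sum_of_nonempty Finset.univ_nonempty
        intro a _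
        rw [norm_sub_rev]
        exact hx (u i a) (Finset.mem_image.mpr ⟨(i, a), Finset.mem_univ _, rfl⟩)
      _ = p * δ := by simp [ZMod.card]
  have hen : en (fun i => 1 - avg (H := H) ρ (u i)) x < n * δ ^ 2 * ‖x‖ ^ 2 := by
    unfold en
    rw [hx1, one_pow, mul_one]
    calc ∑ i, ‖(1 - avg ρ (u i)) x‖ ^ 2 < ∑ _i : ι, δ ^ 2 := by
          apply Finset.sum_lt_sum_of_nonempty Finset.univ_nonempty
          intro i _
          have := hsmall i
          gcongr
      _ = n * δ ^ 2 := by simp [hn]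
  obtain ⟨y, hy0, hy⟩ := exists_fixed hQ hlam0 hlam1 hgap x hen
  refine ⟨y, hy0, ?_⟩
  have hfix : ∀ i a, U ρ (u i a) y = y := by
    intro i a
    have h1 : avg ρ (u i) y = y := by
      have := hy i
      have e : (1 - avg ρ (u i)) y = y - avg ρ (u i) y := by simp
      rw [e] at this
      exact (sub_eq_zero.mp this).symm
    rw [← h1]
    exact U_avg ρ (hu i) a y
  intro g
  have hg : g ∈ Subgroup.closure {g | ∃ i a, u i a = g} := by
    rw [hgen]
    trivial
  change U ρ g y = y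
  induction hg using Subgroup.closure_induction with
  | mem g hg =>
    obtain ⟨i, a, rfl⟩ := hg
    exact hfix i a
  | one => rw [U_one]; rfl
  | mul g h _ _ hg hh => rw [U_mul, hh, hg]
  | inv g _ hg =>
    conv_lhs => rw [← hg]
    exact U_inv_apply ρ g y

end Pool.Agent.H9.Criterion
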