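import Pool.Agent.H9.Tree
import Pool.Agent.H9.KazhdanT

/-!
# The clauses of the final statement
-/

namespace Pool.Agent.H9.Branch

open Equiv Pool.Agent.H9.Mealy Pool.Agent.H9.Letters Pool.Agent.H9.Pairs

/-! ### words -/

section Words

variable {X : Type*}

theorem iterate_dropLast (v : List X) (n : ℕ) : List.dropLast^[n] v = v.take (v.length - n) := by
  induction n with
  | zero => simp
  | succ n ih =>
    rw [Function.iterate_succ_apply', ih, List.dropLast_eq_take, List.take_take,
      List.length_take]
    congr 1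
    omega

theorem level_iff {v : List X} {n : ℕ} (h1 : List.dropLast^[n] v = [])
    (h2 : ∀ k < n, List.dropLast^[k] v ≠ []) : v.length = n := by
  have h3 : v.length ≤ n := by
    rw [iterate_dropLast] at h1
    have := congrArg List.length h1
    rw [List.length_take, List.length_nil] at this
    omega
  by_contra hne
  apply h2 v.length (by omega)
  rw [iterate_dropLast, Nat.sub_self, List.take_zero]

theorem level_self (v : List X) : List.dropLast^[v.length] v = [] := by
  rw [iterate_dropLast, Nat.sub_self, List.take_zero]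

theorem level_lt {v : List X} {k : ℕ} (hk : k < v.length) : List.dropLast^[k] v ≠ [] := by
  intro h
  have := congrArg List.length h
  rw [iterate_dropLast, List.length_take, List.length_nil] at this
  omega

theorem exists_iterate_of_prefix {u v : List X} (h : v <+: u) : ∃ k, List.dropLast^[k] u = v := by
  refine ⟨u.length - v.length, ?_⟩
  rw [iterate_dropLast]
  have h1 := h.length_le
  rw [Nat.sub_sub_self h1]
  exact (List.prefix_iff_eq_take.mp h).symm

theorem dropLast_fixed {v : List X} (h : v.dropLast = v) : v = [] := by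
  have := congrArg List.length h
  rw [List.length_dropLast] at this
  apply List.length_eq_zero_iff.mp
  omega

theorem finite_children [Finite X] (v : List X) : {w : List X | w ≠ [] ∧ w.dropLast = v}.Finite := by
  apply (List.finite_length_eq X (v.length + 1)).subset
  rintro w ⟨hw, rfl⟩
  have : 0 < w.length := List.length_pos_of_ne_nil hw
  change w.length = w.dropLast.length + 1
  rw [List.length_dropLast]
  omega

theorem two_children [Nontrivial X] (v : List X) :
    ∃ a b : List X, a ≠ b ∧ a ≠ [] ∧ b ≠ [] ∧ a.dropLast = v ∧ b.dropLast = v := by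
  obtain ⟨x, y, hxy⟩ := exists_pair_ne X
  refine ⟨v ++ [x], v ++ [y], ?_, by simp, by simp, by simp, by simp⟩
  intro h
  apply hxy
  have := List.append_cancel_left h
  exact (List.cons.inj this).1

end Words

variable {K : Type*} [Field K] [Fintype K] [DecidableEq K]

/-! ### the rigid level stabilizers -/

variable (K) in
/-- the generating set of the rigid stabilizer of level `n` in the group itself -/
def RS (n : ℕ) : Set (Gp K) :=
  {g | ∃ v : List (L K), List.dropLast^[n] v = [] ∧ (∀ k < n, List.dropLast^[k] v ≠ []) ∧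
    ∀ u : List (L K), (∀ k : ℕ, List.dropLast^[k] u ≠ v) → g • u = u}

omit [Fintype K] [DecidableEq K] in
theorem RS_of_Rist {n : ℕ} {g : Perm (List (L K))} (hg : g ∈ Rist K n) :
    ∃ h : g ∈ Gp K, (⟨g, h⟩ : Gp K) ∈ Subgroup.closure (RS K n) := by
  unfold Rist at hg
  induction hg using Subgroup.closure_induction with
  | mem g hg =>
    obtain ⟨hg, v, hv, hgv⟩ := hg
    refine ⟨hg, Subgroup.subset_closure ⟨v, ?_, ?_, ?_⟩⟩
    · rw [← hv]
      exact level_self v
    · intro k hk
      exact level_lt (by omega)
    · intro u hu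
      change g u = u
      apply hgv
      intro h
      obtain ⟨k, hk⟩ := exists_iterate_of_prefix h
      exact hu k hk
  | one => exact ⟨(Gp K).one_mem, Subgroup.one_mem _⟩
  | mul g h _ _ ihg ihh =>
    obtain ⟨hg, ihg⟩ := ihg
    obtain ⟨hh, ihh⟩ := ihh
    exact ⟨(Gp K).mul_mem hg hh, Subgroup.mul_mem _ ihg ihh⟩
  | inv g _ ih =>
    obtain ⟨hg, ih⟩ := ih
    exact ⟨(Gp K).inv_mem hg, Subgroup.inv_mem _ ih⟩

theorem index_RS (n : ℕ) : (Subgroup.closure (RS K n)).index ≠ 0 := by
  have hfin : Finite {w : List (L K) // w.length = n} := (List.finite_length_eq (L K) n).to_subtype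
  have h1 : (⨅ w : {w : List (L K) // w.length = n},
      MulAction.stabilizer (Gp K) (w : List (L K))) ≤ Subgroup.closure (RS K n) := by
    intro g hg
    rw [Subgroup.mem_iInf] at hg
    have h2 : (g : Perm (List (L K))) ∈ Rist K n := by
      apply mem_Rist n g.2
      intro w hw
      exact hg ⟨w, hw⟩
    obtain ⟨_, h3⟩ := RS_of_Rist h2
    exact h3
  have h2 : (⨅ w : {w : List (L K) // w.length = n},
      MulAction.stabilizer (Gp K) (w : List (L K))).FiniteIndex := by
    apply Subgroup.finiteIndex_iInf
    intro w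
    constructor
    rw [MulAction.index_stabilizer]
    have hf : (MulAction.orbit (Gp K) (w : List (L K))).Finite := by
      apply (List.finite_length_eq (L K) n).subset
      rintro _ ⟨g, rfl⟩
      change (g.1 w.1).length = n
      rw [length_eq _ g.2, w.2]
    have hne : (MulAction.orbit (Gp K) (w : List (L K))).Nonempty := MulAction.nonempty_orbit _
    exact fun h => (Set.ncard_ne_zero_of_mem hne.some_mem hf) h
  have h3 := Subgroup.finiteIndex_of_le h1
  exact h3.index_ne_zero

/-! ### Kazhdan's property (T) -/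

theorem kazhdan_Gp {p : ℕ} [Fact p.Prime] (hp : 36 < p) :
    ∃ (S : Finset (Gp (ZMod p))) (ε : ℝ), 0 < ε ∧
      ∀ (H : Type) [NormedAddCommGroup H] [InnerProductSpace ℂ H] [CompleteSpace H]
        (ρ : Gp (ZMod p) →* unitary (H →L[ℂ] H)),
        (∃ x : H, ‖x‖ = 1 ∧ ∀ s ∈ S, ‖(ρ s : H →L[ℂ] H) x - x‖ < ε) →
        ∃ x : H, x ≠ 0 ∧ ∀ g : Gp (ZMod p), (ρ g : H →L[ℂ] H) x = x := by
  have : Nonempty Ix := ⟨Ix.T⟩
  apply Criterion.kazhdan (p := p) (ι := Ix)
    (fun i a => (⟨gen i a, gen_mem i a⟩ : Gp (ZMod p)))
  · intro i a b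
    exact Subtype.ext (gen_add i a b)
  · have h1 := Subgroup.closure_closure_coe_preimage
      (k := {g : Perm (List (L (ZMod p))) | ∃ i a, gen i a = g})
    have h2 : {g : Gp (ZMod p) | ∃ i a, (⟨gen i a, gen_mem i a⟩ : Gp (ZMod p)) = g} =
        (fun g : Gp (ZMod p) => (g : Perm (List (L (ZMod p))))) ⁻¹' {g | ∃ i a, gen i a = g} := by
      ext g
      constructor
      · rintro ⟨i, a, rfl⟩
        exact ⟨i, a, rfl⟩
      · rintro ⟨i, a, h⟩
        exact ⟨i, a, Subtype.ext h⟩
    rw [h2]
    exact h1
  · intro i j hij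
    obtain ⟨z, hz⟩ := ok_all (K := ZMod p) i j hij
    refine ⟨fun c => ⟨z c, Heis.mem hz (gen_mem i) (gen_mem j) c⟩, ?_, ?_, ?_, ?_⟩
    · intro a b
      exact Subtype.ext (hz.add a b)
    · intro a b
      exact Subtype.ext (hz.left a b)
    · intro a b
      exact Subtype.ext (hz.right a b)
    · intro a b
      exact Subtype.ext (hz.rel a b)
  · rw [card_Ix]
    have : (36 : ℝ) < p := by exact_mod_cast hp
    norm_num
    linarith

end Pool.Agent.H9.Branch
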