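import Pool.Agent.H9.Pairs

/-!
# The group and its branching
-/

namespace Pool.Agent.H9.Branch

open Equiv Pool.Agent.H9.Mealy Pool.Agent.H9.Letters Pool.Agent.H9.Pairs

variable (K : Type*) [Field K]

/-- the group generated by the seven one-parameter subgroups -/
def Gp : Subgroup (Perm (List (L K))) := Subgroup.closure {g | ∃ i a, gen i a = g}

variable {K}

theorem gen_mem (i : Ix) (a : K) : gen i a ∈ Gp K := Subgroup.subset_closure ⟨i, a, rfl⟩

/-- solve for `z` in a Heisenberg relation -/
theorem Heis.eq_z {G : Type*} [Group G] {u v z : K → G} (h : Heis u v z) (a : K) :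
    z a = (u a)⁻¹ * (v 1)⁻¹ * u a * v 1 := by
  have := h.rel a 1
  rw [mul_one] at this
  rw [mul_assoc, this]
  group

theorem Heis.commutator {G : Type*} [Group G] {u v z : K → G} (h : Heis u v z) (a b : K) :
    u a * v b * (u a)⁻¹ * (v b)⁻¹ = z (a * b) := by
  rw [h.rel, mul_assoc (v b), h.left, mul_assoc (v b), mul_assoc (z (a * b)), mul_inv_cancel,
    mul_one, h.right, mul_inv_cancel_right]

theorem Heis.mem {G : Type*} [Group G] {u v z : K → G} (h : Heis u v z) {S : Subgroup G}
    (hu : ∀ a, u a ∈ S) (hv : ∀ a, v a ∈ S) (a : K) : z a ∈ S := by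
  rw [Heis.eq_z h]
  exact S.mul_mem (S.mul_mem (S.mul_mem (S.inv_mem (hu a)) (S.inv_mem (hv 1))) (hu a)) (hv 1)

/-! ### letterwise elementary matrices -/

/-- all letterwise `e i j` are in the group -/
def P (i j : Fin 4) : Prop := ∀ (h : i ≠ j) (c : K), hat (e i j h c) ∈ Gp K

theorem P_step {i j k : Fin 4} (hij : i ≠ j) (hjk : j ≠ k) (h1 : P (K := K) i j)
    (h2 : P (K := K) j k) : P (K := K) i k := by
  intro hik c
  exact Heis.mem (heis_hat_hat (e_Heis hij hjk hik)) (h1 hij) (h2 hjk) c

theorem P_all (i j : Fin 4) : P (K := K) i j := by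
  have p01 : P (K := K) 0 1 := fun _ c => gen_mem Ix.E0 c
  have p12 : P (K := K) 1 2 := fun _ c => gen_mem Ix.E1 c
  have p23 : P (K := K) 2 3 := fun _ c => gen_mem Ix.E2 c
  have p30 : P (K := K) 3 0 := fun _ c => gen_mem Ix.E3 c
  have p02 := P_step (by decide) (by decide) p01 p12
  have p13 := P_step (by decide) (by decide) p12 p23
  have p20 := P_step (by decide) (by decide) p23 p30
  have p31 := P_step (by decide) (by decide) p30 p01
  have p03 := P_step (by decide) (by decide) p02 p23
  have p10 := P_step (by decide) (by decide) p13 p30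
  have p21 := P_step (by decide) (by decide) p20 p01
  have p32 := P_step (by decide) (by decide) p31 p12
  fin_cases i <;> fin_cases j
  · exact fun h => absurd rfl h
  · exact p01
  · exact p02
  · exact p03
  · exact p10
  · exact fun h => absurd rfl h
  · exact p12
  · exact p13
  · exact p20
  · exact p21
  · exact fun h => absurd rfl h
  · exact p23
  · exact p30
  · exact p31
  · exact p32
  · exact fun h => absurd rfl h

theorem hat_mem {i j : Fin 4} (h : i ≠ j) (c : K) : hat (e i j h c) ∈ Gp K := P_all i j h c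

/-! ### rooted translations -/

theorem root_t_mem (i : Fin 4) (c : K) : root (t i c) ∈ Gp K := by
  by_cases hi : i = 0
  · subst hi
    exact gen_mem Ix.T c
  · exact Heis.mem (heis_hat_root (e_t_Heis hi)) (fun a => hat_mem hi a)
      (fun a => gen_mem Ix.T a) c

/-! ### shifting the state -/

theorem M_one_shift {lam : L K → K} {φ : K → Perm (L K)} (hφ : IsHom φ) (c q : K) :
    M 1 lam φ (c + q) = hat (φ c) * M 1 lam φ q := by
  rw [hat_eq_M, M_mul hφ (fun _ _ => rfl)]
  simp only [zero_add]

theorem M_zero_shift {lam : L K → K} {φ : K → Perm (L K)} (hφ : IsHom φ) (c q : K) :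
    M 0 lam φ (c + q) = root (φ c) * M 0 lam φ q := by
  rw [root_eq_M hφ, M_mul hφ (fun _ _ => rfl)]
  simp only [zero_add]

theorem M_sec {κ : K} {lam : L K → K} {φ : K → Perm (L K)} (hφ : IsHom φ) :
    M κ lam φ 0 = sec (fun x => M κ lam φ (lam x)) := by
  rw [M_eq, hφ.zero, sec_apply]
  simp only [mul_zero, zero_add]

/-- the basic computation: conjugate by a rooted automorphism -/
theorem conj_M_one {lam : L K → K} {φ : K → Perm (L K)} (hφ : IsHom φ) (σ : Perm (L K)) :
    (root σ)⁻¹ * M 1 lam φ 0 * root σ * (M 1 lam φ 0)⁻¹ =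
      sec (fun x => hat (φ (lam (σ x) - lam x))) := by
  rw [M_sec hφ, sec_conj_root, ← map_inv, ← map_mul]
  congr 1
  funext x
  simp only [Pi.mul_apply, Pi.inv_apply]
  rw [mul_inv_eq_iff_eq_mul, ← M_one_shift hφ, sub_add_cancel]

theorem conj_M_zero {lam : L K → K} {φ : K → Perm (L K)} (hφ : IsHom φ) (σ : Perm (L K)) :
    (root σ)⁻¹ * M 0 lam φ 0 * root σ * (M 0 lam φ 0)⁻¹ =
      sec (fun x => root (φ (lam (σ x) - lam x))) := by
  rw [M_sec hφ, sec_conj_root, ← map_inv, ← map_mul]
  congr 1
  funext x
  simp only [Pi.mul_apply, Pi.inv_apply]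
  rw [mul_inv_eq_iff_eq_mul, ← M_zero_shift hφ, sub_add_cancel]

theorem conj_mem {S : Subgroup (Perm (List (L K)))} {a b : Perm (List (L K))} (ha : a ∈ S)
    (hb : b ∈ S) : a⁻¹ * b * a * b⁻¹ ∈ S :=
  S.mul_mem (S.mul_mem (S.mul_mem (S.inv_mem ha) hb) ha) (S.inv_mem hb)

/-! ### rooted elementary matrices -/

theorem const01_mem (c : K) :
    sec (fun _ : L K => hat (e 0 1 (by decide) c)) ∈ Gp K := by
  have h := conj_mem (root_t_mem (K := K) 2 1) (gen_mem Ix.D c)
  simp only [gen] at h
  rw [conj_M_one (e_hom _)] at h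
  convert h using 5 with x
  rw [t_same]
  ring

/-- all rooted `e i j` are in the group -/
def R (i j : Fin 4) : Prop := ∀ (h : i ≠ j) (c : K), root (e i j h c) ∈ Gp K

theorem R_left {i j k : Fin 4} (hij : i ≠ j) (hjk : j ≠ k)
    (h2 : R (K := K) j k) : R (K := K) i k := by
  intro hik c
  exact Heis.mem (heis_hat_root (e_Heis hij hjk hik)) (hat_mem hij) (h2 hjk) c

theorem R_right {i j k : Fin 4} (hij : i ≠ j) (hjk : j ≠ k)
    (h1 : R (K := K) i j) : R (K := K) i k := by
  intro hik c
  have := Heis.mem (heis_hat_root (e_Heis hij hjk hik).symm) (hat_mem hjk) (h1 hij) (c)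
  rw [map_inv] at this
  exact (Subgroup.inv_mem_iff _).mp this

theorem R01 : R (K := K) 0 1 := by
  intro h c
  have h1 := hat_eq_root_mul (e (K := K) 0 1 h c)
  rw [← mul_inv_eq_iff_eq_mul] at h1
  rw [← h1]
  exact (Gp K).mul_mem (hat_mem h c) ((Gp K).inv_mem (const01_mem c))

theorem R_all (i j : Fin 4) : R (K := K) i j := by
  have r02 : R (K := K) 0 2 := R_right (by decide) (by decide) R01
  have r03 : R (K := K) 0 3 := R_right (by decide) (by decide) R01
  have r12 : R (K := K) 1 2 := R_left (by decide) (by decide) r02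
  have r13 : R (K := K) 1 3 := R_left (by decide) (by decide) r03
  have r21 : R (K := K) 2 1 := R_left (by decide) (by decide) R01
  have r23 : R (K := K) 2 3 := R_left (by decide) (by decide) r03
  have r31 : R (K := K) 3 1 := R_left (by decide) (by decide) R01
  have r32 : R (K := K) 3 2 := R_left (by decide) (by decide) r02
  have r10 : R (K := K) 1 0 := R_right (by decide) (by decide) r12
  have r20 : R (K := K) 2 0 := R_right (by decide) (by decide) r21
  have r30 : R (K := K) 3 0 := R_right (by decide) (by decide) r31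
  fin_cases i <;> fin_cases j
  · exact fun h => absurd rfl h
  · exact R01
  · exact r02
  · exact r03
  · exact r10
  · exact fun h => absurd rfl h
  · exact r12
  · exact r13
  · exact r20
  · exact r21
  · exact fun h => absurd rfl h
  · exact r23
  · exact r30
  · exact r31
  · exact r32
  · exact fun h => absurd rfl h

theorem root_e_mem {i j : Fin 4} (h : i ≠ j) (c : K) : root (e i j h c) ∈ Gp K := R_all i j h c

theorem const_mem {i j : Fin 4} (h : i ≠ j) (c : K) :
    sec (fun _ : L K => hat (e i j h c)) ∈ Gp K := by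
  have h1 := hat_eq_root_mul (e (K := K) i j h c)
  rw [← inv_mul_eq_iff_eq_mul] at h1
  rw [← h1]
  exact (Gp K).mul_mem ((Gp K).inv_mem (root_e_mem h c)) (hat_mem h c)

/-! ### the ring of coefficient functions -/

/-- `g` is a coefficient function for `e i j` -/
def Hf (i j : Fin 4) (g : L K → K) : Prop :=
  ∀ (h : i ≠ j) (c : K), sec (fun x => hat (e i j h (c * g x))) ∈ Gp K

theorem Hf_one (i j : Fin 4) : Hf (K := K) i j (fun _ => 1) := by
  intro h c
  simp only [mul_one]
  exact const_mem h c

theorem Hf_smul {i j : Fin 4} {g : L K → K} (hg : Hf i j g) (a : K) :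
    Hf i j (fun x => a * g x) := by
  intro h c
  have := hg h (c * a)
  simpa only [mul_assoc] using this

theorem Hf_add {i j : Fin 4} {g g' : L K → K} (hg : Hf i j g) (hg' : Hf i j g') :
    Hf i j (fun x => g x + g' x) := by
  intro h c
  have := (Gp K).mul_mem (hg h c) (hg' h c)
  rw [← map_mul] at this
  convert this using 3 with x
  rw [Pi.mul_apply, ← hat_mul, ← e_hom, mul_add]

theorem Hf_mul {i j k : Fin 4} (hij : i ≠ j) (hjk : j ≠ k) {g g' : L K → K} (hg : Hf i j g)
    (hg' : Hf j k g') : Hf i k (fun x => g x * g' x) := by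
  intro hik c
  have h1 := hg hij c
  have h2 := hg' hjk 1
  have h3 := (Gp K).mul_mem ((Gp K).mul_mem ((Gp K).mul_mem h1 h2) ((Gp K).inv_mem h1))
    ((Gp K).inv_mem h2)
  rw [← map_mul, ← map_inv, ← map_mul, ← map_inv, ← map_mul] at h3
  convert h3 using 3 with x
  simp only [Pi.mul_apply, Pi.inv_apply]
  rw [Heis.commutator (heis_hat_hat (e_Heis hij hjk hik))]
  congr 2
  ring

theorem Hf_comp {i j : Fin 4} {g : L K → K} (hg : Hf i j g) {σ : Perm (L K)}
    (hσ : root σ ∈ Gp K) : Hf i j (fun x => g (σ x)) := by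
  intro h c
  have := (Gp K).mul_mem ((Gp K).mul_mem ((Gp K).inv_mem hσ) (hg h c)) hσ
  rwa [sec_conj_root] at this

theorem Hf_x3 : Hf (K := K) 0 1 (fun x => x 3) := by
  intro h c
  have h1 := conj_mem (root_e_mem (K := K) (by decide : (2 : Fin 4) ≠ 3) 1) (gen_mem Ix.D c)
  simp only [gen] at h1
  rw [conj_M_one (e_hom _)] at h1
  convert h1 using 5 with x
  rw [e_same]
  ring

theorem Hf_coord (j : Fin 4) : Hf (K := K) 0 1 (fun x => x j) := by
  by_cases hj : j = 3
  · subst hj
    exact Hf_x3
  · have h1 := Hf_comp Hf_x3 (root_e_mem (K := K) (Ne.symm hj) 1)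
    have h2 := Hf_add h1 (Hf_smul Hf_x3 (-1))
    convert h2 using 2 with x
    rw [e_same]
    ring

theorem Hf_all {g : L K → K} (hg : Hf 0 1 g) (i j : Fin 4) : Hf i j g := by
  have right : ∀ {i j k : Fin 4}, i ≠ j → j ≠ k → Hf i j g → Hf i k g := by
    intro i j k hij hjk h
    have := Hf_mul hij hjk h (Hf_one j k)
    simpa only [mul_one] using this
  have left : ∀ {i j k : Fin 4}, i ≠ j → j ≠ k → Hf j k g → Hf i k g := by
    intro i j k hij hjk h
    have := Hf_mul hij hjk (Hf_one i j) h
    simpa only [one_mul] using this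
  have r02 : Hf 0 2 g := right (by decide) (by decide) hg
  have r03 : Hf 0 3 g := right (by decide) (by decide) hg
  have r12 : Hf 1 2 g := left (by decide) (by decide) r02
  have r13 : Hf 1 3 g := left (by decide) (by decide) r03
  have r21 : Hf 2 1 g := left (by decide) (by decide) hg
  have r23 : Hf 2 3 g := left (by decide) (by decide) r03
  have r31 : Hf 3 1 g := left (by decide) (by decide) hg
  have r32 : Hf 3 2 g := left (by decide) (by decide) r02
  have r10 : Hf 1 0 g := right (by decide) (by decide) r12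
  have r20 : Hf 2 0 g := right (by decide) (by decide) r21
  have r30 : Hf 3 0 g := right (by decide) (by decide) r31
  fin_cases i <;> fin_cases j
  · exact fun h => absurd rfl h
  · exact hg
  · exact r02
  · exact r03
  · exact r10
  · exact fun h => absurd rfl h
  · exact r12
  · exact r13
  · exact r20
  · exact r21
  · exact fun h => absurd rfl h
  · exact r23
  · exact r30
  · exact r31
  · exact r32
  · exact fun h => absurd rfl h

variable (K) in
/-- the ring of all coefficient functions -/
def Aring : Subring (L K → K) where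
  carrier := {g | ∀ i j, Hf i j g}
  mul_mem' := by
    intro g g' hg hg'
    apply Hf_all
    exact Hf_mul (by decide : (0 : Fin 4) ≠ 2) (by decide) (hg 0 2) (hg' 2 1)
  one_mem' := fun i j => Hf_one i j
  add_mem' := fun hg hg' i j => Hf_add (hg i j) (hg' i j)
  zero_mem' := by
    intro i j
    have := Hf_smul (Hf_one (K := K) i j) 0
    simp only [zero_mul] at this
    exact this
  neg_mem' := by
    intro g hg i j
    have := Hf_smul (hg i j) (-1)
    simp only [neg_mul, one_mul] at this
    exact this

theorem coord_mem (j : Fin 4) : (fun x : L K => x j) ∈ Aring K := fun _ _ => Hf_all (Hf_coord j) _ _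

theorem const_mem_Aring (a : K) : (fun _ : L K => a) ∈ Aring K := by
  intro i j
  have := Hf_smul (Hf_one (K := K) i j) a
  simpa only [mul_one] using this

end Pool.Agent.H9.Branch
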