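import Pool.Agent.H9.Branch

/-!
# The full direct power of the group is contained in the group
-/

namespace Pool.Agent.H9.Branch

open Equiv Pool.Agent.H9.Mealy Pool.Agent.H9.Letters Pool.Agent.H9.Pairs

variable {K : Type*} [Field K] [Fintype K] [DecidableEq K]

/-- the indicator function of a letter -/
def delta (x : L K) : L K → K :=
  ∏ i : Fin 4, (1 - ((fun y : L K => y i) - (fun _ => x i)) ^ (Fintype.card K - 1))

theorem delta_mem (x : L K) : delta x ∈ Aring K := by
  apply Subring.prod_mem
  intro i _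
  exact (Aring K).sub_mem (Aring K).one_mem
    ((Aring K).pow_mem ((Aring K).sub_mem (coord_mem i) (const_mem_Aring (x i))) _)

theorem delta_apply (x y : L K) : delta x y = if y = x then 1 else 0 := by
  have h1 : delta x y = ∏ i : Fin 4, (1 - (y i - x i) ^ (Fintype.card K - 1)) := by
    simp [delta, Finset.prod_apply]
  rw [h1]
  have hc : Fintype.card K - 1 ≠ 0 := by
    have := Fintype.one_lt_card (α := K)
    omega
  split_ifs with h
  · subst h
    apply Finset.prod_eq_one
    intro i _
    rw [sub_self, zero_pow hc, sub_zero]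
  · obtain ⟨i, hi⟩ := Function.ne_iff.mp h
    apply Finset.prod_eq_zero (Finset.mem_univ i)
    rw [FiniteField.pow_card_sub_one_eq_one _ (sub_ne_zero.mpr hi), sub_self]

/-- insert an automorphism at the letter `x` -/
def secAt (x : L K) : Perm (List (L K)) →* Perm (List (L K)) :=
  sec.comp (MonoidHom.mulSingle (fun _ : L K => Perm (List (L K))) x)

theorem secAt_apply (x : L K) (g : Perm (List (L K))) : secAt x g = sec (Pi.mulSingle x g) := rfl

theorem secAt_hat_mem (x : L K) {i j : Fin 4} (h : i ≠ j) (c : K) :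
    secAt x (hat (e i j h c)) ∈ Gp K := by
  have := delta_mem x i j h c
  rw [secAt_apply]
  convert this using 2
  funext y
  rw [delta_apply]
  by_cases hy : y = x
  · subst hy
    rw [Pi.mulSingle_eq_same, if_pos rfl, mul_one]
  · rw [Pi.mulSingle_eq_of_ne hy, if_neg hy, mul_zero, (e_hom h).zero, hat_one]

theorem secAt_comm (x : L K) (g : Perm (List (L K))) (f : L K → Perm (List (L K))) :
    secAt x g * sec f * (secAt x g)⁻¹ * (sec f)⁻¹ = secAt x (g * f x * g⁻¹ * (f x)⁻¹) := by
  rw [secAt_apply, secAt_apply, ← map_mul, ← map_inv, ← map_inv, ← map_mul, ← map_mul]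
  congr 1
  funext y
  by_cases hy : y = x
  · subst hy
    simp
  · simp [Pi.mulSingle_eq_of_ne hy]

theorem secAt_comm_mem {x : L K} {g : Perm (List (L K))} {f : L K → Perm (List (L K))}
    (hg : secAt x g ∈ Gp K) (hf : sec f ∈ Gp K) :
    secAt x (g * f x * g⁻¹ * (f x)⁻¹) ∈ Gp K := by
  rw [← secAt_comm]
  exact (Gp K).mul_mem ((Gp K).mul_mem ((Gp K).mul_mem hg hf) ((Gp K).inv_mem hg))
    ((Gp K).inv_mem hf)

theorem secAt_comm_mem' {x : L K} {g h : Perm (List (L K))}
    (hg : secAt x g ∈ Gp K) (hh : secAt x h ∈ Gp K) :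
    secAt x (g * h * g⁻¹ * h⁻¹) ∈ Gp K := by
  rw [map_mul, map_mul, map_mul, map_inv, map_inv]
  exact (Gp K).mul_mem ((Gp K).mul_mem ((Gp K).mul_mem hg hh) ((Gp K).inv_mem hg))
    ((Gp K).inv_mem hh)

/-- a general step with a Heisenberg pair -/
theorem secAt_heis {x : L K} {u v z : K → Perm (List (L K))} (h : Heis u v z)
    (hu : ∀ a, secAt x (u a) ∈ Gp K) (hv : ∀ a, secAt x (v a) ∈ Gp K) (a : K) :
    secAt x (z a) ∈ Gp K := by
  have h1 := secAt_comm_mem' (hu 1) (hv a)
  rwa [Heis.commutator h, one_mul] at h1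

theorem secAt_heis' {x : L K} {u v z : K → Perm (List (L K))} (h : Heis u v z)
    (hu : ∀ a, secAt x (u a) ∈ Gp K) (hv : ∀ a, sec (fun _ => v a) ∈ Gp K) (a : K) :
    secAt x (z a) ∈ Gp K := by
  have h1 := secAt_comm_mem (hu 1) (hv a)
  rwa [Heis.commutator h, one_mul] at h1

theorem sec_mem_of_secAt {f : L K → Perm (List (L K))} (h : ∀ x, secAt x (f x) ∈ Gp K) :
    sec f ∈ Gp K := by
  have h1 : f ∈ (Gp K).comap sec := by
    apply Subgroup.pi_mem_of_mulSingle_mem
    intro x
    exact h x
  exact h1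

/-! ### the generator `D` -/

theorem constD_mem (c : K) : sec (fun _ : L K => gen Ix.D c) ∈ Gp K := by
  have h1 : gen Ix.D c = sec (fun x : L K => hat (e 0 1 (by decide) (c * x 2))) *
      sec (fun _ : L K => gen Ix.D c) := by
    rw [← map_mul]
    simp only [gen]
    rw [M_sec (e_hom _)]
    congr 1
    funext x
    rw [Pi.mul_apply, ← M_sec (e_hom _), ← M_one_shift (e_hom _), add_zero]
  rw [← inv_mul_eq_iff_eq_mul] at h1
  rw [← h1]
  refine (Gp K).mul_mem ((Gp K).inv_mem ?_) (gen_mem _ _)
  exact coord_mem 2 0 1 (by decide) c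

/-- relation used to produce `D` at one letter -/
theorem heis_E2_D : Heis (K := K) (fun a => hat (e 2 3 (by decide) a)) (gen Ix.D)
    (fun c => M 1 (fun x : L K => c * (-x 3)) (e 0 1 (by decide)) 0) :=
  heis_hat_M_tr (lam := fun x : L K => x 2) (mu := fun x : L K => -x 3)
    (u := e (K := K) 2 3 (by decide)) (φ := e (K := K) 0 1 (by decide)) (e_hom _)
    (fun a b => e_comm _ _ (by decide) (by decide) a b)
    (fun a x => e_inv_same _ a x)
    (fun c x => by rw [e_other _ (by decide)]) (fun c x => by rw [e_other _ (by decide)])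
    (fun c x => by rw [e_other _ (by decide)])

/-- relation used to produce `D` at one letter -/
theorem heis_32_D : Heis (K := K) (fun a => hat (e 3 2 (by decide) a))
    (fun c => M 1 (fun x : L K => c * (-x 3)) (e 0 1 (by decide)) 0) (gen Ix.D) :=
  heis_hat_M_tr (lam := fun x : L K => -x 3) (mu := fun x : L K => x 2)
    (u := e (K := K) 3 2 (by decide)) (φ := e (K := K) 0 1 (by decide)) (e_hom _)
    (fun a b => e_comm _ _ (by decide) (by decide) a b)
    (fun a x => by rw [e_inv_same]; ring)
    (fun c x => by rw [e_other _ (by decide)]) (fun c x => by rw [e_other _ (by decide)])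
    (fun c x => by rw [e_other _ (by decide)])

theorem secAt_D_mem (x : L K) (c : K) : secAt x (gen Ix.D c) ∈ Gp K :=
  secAt_heis heis_32_D (fun a => secAt_hat_mem x _ a)
    (fun a => secAt_heis' heis_E2_D (fun a => secAt_hat_mem x _ a) constD_mem a) c

/-! ### the rooted translations -/

theorem constT0_mem (c : K) : sec (fun _ : L K => root (t 0 c)) ∈ Gp K := by
  have h := conj_mem (root_t_mem (K := K) 1 1) (gen_mem Ix.B c)
  simp only [gen] at h
  rw [conj_M_zero (t_hom _)] at h
  convert h using 5 with x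
  rw [t_same]
  ring

theorem constT1_mem (c : K) : sec (fun _ : L K => root (t 1 c)) ∈ Gp K := by
  have h1 := const_mem (K := K) (by decide : (1 : Fin 4) ≠ 0) 1
  have h2 := constT0_mem c
  have h3 := (Gp K).mul_mem ((Gp K).mul_mem ((Gp K).mul_mem h1 h2) ((Gp K).inv_mem h1))
    ((Gp K).inv_mem h2)
  rw [← map_mul, ← map_inv, ← map_mul, ← map_inv, ← map_mul] at h3
  convert h3 using 3 with x
  simp only [Pi.mul_apply, Pi.inv_apply]
  rw [Heis.commutator (heis_hat_root (e_t_Heis (by decide))), one_mul]

theorem secAt_T_mem (x : L K) (c : K) : secAt x (gen Ix.T c) ∈ Gp K := by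
  refine secAt_heis' (u := fun a => hat (e 0 1 (by decide) a)) (v := fun a => root (t 1 a))
    (z := gen Ix.T) (heis_hat_root (e_t_Heis (by decide))) ?_ constT1_mem c
  intro a
  exact secAt_hat_mem x _ a

/-! ### the generator `B` -/

theorem constB_mem (c : K) : sec (fun _ : L K => gen Ix.B c) ∈ Gp K := by
  have h1 : gen Ix.B c = sec (fun x : L K => root (t 0 (c * x 1))) *
      sec (fun _ : L K => gen Ix.B c) := by
    rw [← map_mul]
    simp only [gen]
    rw [M_sec (t_hom _)]
    congr 1
    funext x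
    rw [Pi.mul_apply, ← M_sec (t_hom _), ← M_zero_shift (t_hom _), add_zero]
  rw [← inv_mul_eq_iff_eq_mul] at h1
  rw [← h1]
  refine (Gp K).mul_mem ((Gp K).inv_mem ?_) (gen_mem _ _)
  exact sec_mem_of_secAt fun x => secAt_T_mem x _

/-- relation used to produce `B` at one letter -/
theorem heis_E1_B : Heis (K := K) (fun a => hat (e 1 2 (by decide) a)) (gen Ix.B)
    (fun c => M 0 (fun x : L K => c * (-x 2)) (t 0) 0) :=
  heis_hat_M_tr (lam := fun x : L K => x 1) (mu := fun x : L K => -x 2)
    (u := e (K := K) 1 2 (by decide)) (φ := t (K := K) 0) (t_hom _)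
    (fun a b => (t_e_comm _ (by decide) b a).symm)
    (fun a x => e_inv_same _ a x)
    (fun c x => by rw [e_other _ (by decide)]) (fun c x => by rw [t_other (by decide)])
    (fun c x => by rw [t_other (by decide)])

/-- relation used to produce `B` at one letter -/
theorem heis_21_B : Heis (K := K) (fun a => hat (e 2 1 (by decide) a))
    (fun c => M 0 (fun x : L K => c * (-x 2)) (t 0) 0) (gen Ix.B) :=
  heis_hat_M_tr (lam := fun x : L K => -x 2) (mu := fun x : L K => x 1)
    (u := e (K := K) 2 1 (by decide)) (φ := t (K := K) 0) (t_hom _)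
    (fun a b => (t_e_comm _ (by decide) b a).symm)
    (fun a x => by rw [e_inv_same]; ring)
    (fun c x => by rw [e_other _ (by decide)]) (fun c x => by rw [t_other (by decide)])
    (fun c x => by rw [t_other (by decide)])

theorem secAt_B_mem (x : L K) (c : K) : secAt x (gen Ix.B c) ∈ Gp K :=
  secAt_heis heis_21_B (fun a => secAt_hat_mem x _ a)
    (fun a => secAt_heis' heis_E1_B (fun a => secAt_hat_mem x _ a) constB_mem a) c

/-- The direct power of the group is in the group. -/
theorem secAt_mem (x : L K) {g : Perm (List (L K))} (hg : g ∈ Gp K) : secAt x g ∈ Gp K := by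
  have h1 : Gp K ≤ (Gp K).comap (secAt x) := by
    rw [Gp, Subgroup.closure_le]
    rintro _ ⟨i, a, rfl⟩
    change secAt x (gen i a) ∈ Gp K
    cases i
    · exact secAt_T_mem x a
    · exact secAt_hat_mem x _ a
    · exact secAt_hat_mem x _ a
    · exact secAt_hat_mem x _ a
    · exact secAt_hat_mem x _ a
    · exact secAt_D_mem x a
    · exact secAt_B_mem x a
  exact h1 hg

theorem sec_mem {f : L K → Perm (List (L K))} (hf : ∀ x, f x ∈ Gp K) : sec f ∈ Gp K :=
  sec_mem_of_secAt fun x => secAt_mem x (hf x)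

end Pool.Agent.H9.Branch
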