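import Mathlib

/-!
# A spectral criterion for property (T)

A group generated by finitely many subgroups isomorphic to `ZMod p` which pairwise commute or
generate Heisenberg groups has property (T) if `(n - 1)^2 < p`.
-/

namespace Pool.Agent.H9.Criterion

open scoped InnerProductSpace

/-! ## Three projections -/

section Projections

variable {H : Type*} [NormedAddCommGroup H] [InnerProductSpace ℂ H]

/-- orthogonal projections, as idempotent symmetric maps -/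
structure IsProj (P : H →L[ℂ] H) : Prop where
  idem : ∀ x, P (P x) = P x
  symm : ∀ x y, ⟪P x, y⟫_ℂ = ⟪x, P y⟫_ℂ

theorem IsProj.compl {P : H →L[ℂ] H} (hP : IsProj P) : IsProj (1 - P) where
  idem x := by simp [hP.idem]
  symm x y := by
    have e : ∀ y : H, (1 - P) y = y - P y := fun y => by simp
    rw [e, e, inner_sub_left, inner_sub_right, hP.symm]

theorem IsProj.inner_self {P : H →L[ℂ] H} (hP : IsProj P) (x : H) :
    ⟪P x, x⟫_ℂ = ((‖P x‖ ^ 2 : ℝ) : ℂ) := by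
  have : ⟪P x, P x⟫_ℂ = ⟪P x, x⟫_ℂ := by
    rw [← hP.symm, hP.idem]
  rw [← this, inner_self_eq_norm_sq_to_K]
  norm_cast

theorem IsProj.re_inner_self {P : H →L[ℂ] H} (hP : IsProj P) (x : H) :
    (⟪P x, x⟫_ℂ).re = ‖P x‖ ^ 2 := by
  rw [hP.inner_self, Complex.ofReal_re]

theorem IsProj.norm_sq_compl {P : H →L[ℂ] H} (hP : IsProj P) (x : H) :
    ‖(1 - P) x‖ ^ 2 = ‖x‖ ^ 2 - ‖P x‖ ^ 2 := by
  have h1 := hP.compl.re_inner_self x
  have h2 := hP.re_inner_self x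
  rw [← h1, ← h2]
  have : (1 - P) x = x - P x := by simp
  rw [this, inner_sub_left, Complex.sub_re]
  have h3 : (⟪x, x⟫_ℂ).re = ‖x‖ ^ 2 := inner_self_eq_norm_sq (𝕜 := ℂ) x
  rw [h3]

/-- Two projections with small angle and no common fixed vectors. -/
theorem pair_orth {P P' : H →L[ℂ] H} (hP : IsProj P) (hP' : IsProj P') {ε : ℝ} (hε : 0 ≤ ε)
    (hε1 : ε < 1) (x : H)
    (hsmall : ‖⟪P x, P' x⟫_ℂ‖ ≤ ε * ‖P x‖ * ‖P' x‖) :
    -ε * (‖(1 - P) x‖ ^ 2 + ‖(1 - P') x‖ ^ 2) ≤ 2 * (⟪(1 - P) x, (1 - P') x⟫_ℂ).re := by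
  set N : ℝ := ‖P x‖ ^ 2 + ‖P' x‖ ^ 2 with hN
  -- `N ≤ (1 + ε) ‖x‖²`
  have hs : ‖P x + P' x‖ ^ 2 ≤ (1 + ε) * N := by
    have h1 := norm_add_sq (𝕜 := ℂ) (P x) (P' x)
    have h2 : RCLike.re ⟪P x, P' x⟫_ℂ ≤ ε * ‖P x‖ * ‖P' x‖ :=
      (RCLike.re_le_norm _).trans hsmall
    rw [h1]
    nlinarith [sq_nonneg (‖P x‖ - ‖P' x‖)]
  have hin : (⟪P x + P' x, x⟫_ℂ).re = N := by
    rw [inner_add_left, Complex.add_re, hP.re_inner_self, hP'.re_inner_self]
  have hN1 : N ≤ ‖P x + P' x‖ * ‖x‖ := by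
    rw [← hin]
    exact (Complex.re_le_norm _).trans (norm_inner_le_norm _ _)
  have hN0 : 0 ≤ N := by positivity
  have hNle : N ≤ (1 + ε) * ‖x‖ ^ 2 := by
    by_contra hcon
    push Not at hcon
    have hNpos : 0 < N := lt_of_le_of_lt (by positivity) hcon
    have : N ^ 2 ≤ (1 + ε) * N * ‖x‖ ^ 2 := by
      calc N ^ 2 ≤ (‖P x + P' x‖ * ‖x‖) ^ 2 := by gcongr
        _ = ‖P x + P' x‖ ^ 2 * ‖x‖ ^ 2 := by ring
        _ ≤ (1 + ε) * N * ‖x‖ ^ 2 := by gcongr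
    nlinarith
  set M : ℝ := ‖(1 - P) x‖ ^ 2 + ‖(1 - P') x‖ ^ 2 with hM
  have hMge : (1 - ε) * ‖x‖ ^ 2 ≤ M := by
    rw [hM, hP.norm_sq_compl, hP'.norm_sq_compl]
    linarith
  have hin2 : (⟪(1 - P) x + (1 - P') x, x⟫_ℂ).re = M := by
    rw [inner_add_left, Complex.add_re, hP.compl.re_inner_self, hP'.compl.re_inner_self]
  have hM1 : M ≤ ‖(1 - P) x + (1 - P') x‖ * ‖x‖ := by
    rw [← hin2]
    exact (Complex.re_le_norm _).trans (norm_inner_le_norm _ _)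
  have hM0 : 0 ≤ M := by positivity
  have hsq := norm_add_sq (𝕜 := ℂ) ((1 - P) x) ((1 - P') x)
  have hre : RCLike.re ⟪(1 - P) x, (1 - P') x⟫_ℂ = (⟪(1 - P) x, (1 - P') x⟫_ℂ).re := rfl
  rw [hre] at hsq
  have key : (1 - ε) * M ≤ ‖(1 - P) x + (1 - P') x‖ ^ 2 := by
    rcases hM0.eq_or_lt with h | h
    · rw [← h]
      simp
    · have h1 : M ^ 2 ≤ ‖(1 - P) x + (1 - P') x‖ ^ 2 * ‖x‖ ^ 2 := by
        calc M ^ 2 ≤ (‖(1 - P) x + (1 - P') x‖ * ‖x‖) ^ 2 := by gcongr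
          _ = _ := by ring
      have h2 : (1 - ε) * M ^ 2 ≤ ‖(1 - P) x + (1 - P') x‖ ^ 2 * M := by
        calc (1 - ε) * M ^ 2 ≤ (1 - ε) * (‖(1 - P) x + (1 - P') x‖ ^ 2 * ‖x‖ ^ 2) := by
              gcongr
          _ = ‖(1 - P) x + (1 - P') x‖ ^ 2 * ((1 - ε) * ‖x‖ ^ 2) := by ring
          _ ≤ _ := by gcongr
      by_contra hcon
      push Not at hcon
      nlinarith
  linarith

/-- The pair inequality. -/
theorem pair_ineq {P P' E : H →L[ℂ] H} (hP : IsProj P) (hP' : IsProj P') (hE : IsProj E)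
    {ε : ℝ} (hε : 0 ≤ ε) (hε1 : ε < 1)
    (hPE : ∀ x, P (E x) = E (P x)) (hPE' : ∀ x, P' (E x) = E (P' x))
    (hcomm : ∀ x, E x = x → P (P' x) = P' (P x))
    (hsmall : ∀ x, E x = 0 → ‖P' (P x)‖ ≤ ε * ‖P x‖) (x : H) :
    -ε * (‖(1 - P) x‖ ^ 2 + ‖(1 - P') x‖ ^ 2) ≤ 2 * (⟪(1 - P) x, (1 - P') x⟫_ℂ).re := by
  set a := E x with ha
  set c := x - E x with hc
  have hEa : E a = a := hE.idem x
  have hEc : E c = 0 := by rw [hc, map_sub, hE.idem, sub_self]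
  have hx : x = a + c := by rw [ha, hc]; abel
  -- cross terms vanish
  have hQ : ∀ y, (1 - P) (E y) = E ((1 - P) y) := by
    intro y
    simp [hPE]
  have hQ' : ∀ y, (1 - P') (E y) = E ((1 - P') y) := by
    intro y
    simp [hPE']
  have hcross : ∀ y z : H, E y = y → E z = 0 → ⟪y, z⟫_ℂ = 0 := by
    intro y z hy hz
    rw [← hy, hE.symm, hz, inner_zero_right]
  have h1 : E ((1 - P) a) = (1 - P) a := by rw [← hQ, hEa]
  have h2 : E ((1 - P) c) = 0 := by rw [← hQ, hEc, map_zero]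
  have h1' : E ((1 - P') a) = (1 - P') a := by rw [← hQ', hEa]
  have h2' : E ((1 - P') c) = 0 := by rw [← hQ', hEc, map_zero]
  have hsplit : ⟪(1 - P) x, (1 - P') x⟫_ℂ =
      ⟪(1 - P) a, (1 - P') a⟫_ℂ + ⟪(1 - P) c, (1 - P') c⟫_ℂ := by
    conv_lhs => rw [hx, map_add, map_add, inner_add_left, inner_add_right, inner_add_right]
    rw [hcross _ _ h1 h2', ← inner_conj_symm ((1 - P) c) ((1 - P') a), hcross _ _ h1' h2, map_zero,
      zero_add, add_zero]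
  have hn : ‖(1 - P) x‖ ^ 2 = ‖(1 - P) a‖ ^ 2 + ‖(1 - P) c‖ ^ 2 := by
    conv_lhs => rw [hx, map_add]
    have := norm_add_sq (𝕜 := ℂ) ((1 - P) a) ((1 - P) c)
    rw [this, hcross _ _ h1 h2]
    simp
  have hn' : ‖(1 - P') x‖ ^ 2 = ‖(1 - P') a‖ ^ 2 + ‖(1 - P') c‖ ^ 2 := by
    conv_lhs => rw [hx, map_add]
    have := norm_add_sq (𝕜 := ℂ) ((1 - P') a) ((1 - P') c)
    rw [this, hcross _ _ h1' h2']
    simp
  -- the commuting part
  have hpos : 0 ≤ (⟪(1 - P) a, (1 - P') a⟫_ℂ).re := by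
    have hcomm' : (1 - P) ((1 - P') a) = (1 - P') ((1 - P) a) := by
      have := hcomm a hEa
      have e : ∀ (R : H →L[ℂ] H) (y : H), (1 - R) y = y - R y := fun R y => by simp
      rw [e, e, e, e, map_sub, map_sub, this]
      abel
    have : ⟪(1 - P) a, (1 - P') a⟫_ℂ = ⟪(1 - P') ((1 - P) a), (1 - P') ((1 - P) a)⟫_ℂ := by
      calc ⟪(1 - P) a, (1 - P') a⟫_ℂ = ⟪(1 - P) ((1 - P) a), (1 - P') a⟫_ℂ := by
            rw [hP.compl.idem]
        _ = ⟪(1 - P) a, (1 - P) ((1 - P') a)⟫_ℂ := by rw [hP.compl.symm]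
        _ = ⟪(1 - P) a, (1 - P') ((1 - P) a)⟫_ℂ := by rw [hcomm']
        _ = ⟪(1 - P) a, (1 - P') ((1 - P') ((1 - P) a))⟫_ℂ := by rw [hP'.compl.idem]
        _ = _ := by rw [← hP'.compl.symm]
    rw [this]
    exact inner_self_nonneg (𝕜 := ℂ)
  -- the orthogonal part
  have hneg := pair_orth hP hP' hε hε1 c (by
    have : ⟪P c, P' c⟫_ℂ = ⟪P' (P c), P' c⟫_ℂ := by
      rw [hP'.symm, hP'.idem]
    rw [this]
    calc ‖⟪P' (P c), P' c⟫_ℂ‖ ≤ ‖P' (P c)‖ * ‖P' c‖ := norm_inner_le_norm _ _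
      _ ≤ ε * ‖P c‖ * ‖P' c‖ := by
        gcongr
        exact hsmall c hEc)
  rw [hsplit, Complex.add_re, hn, hn']
  have e1 : 0 ≤ ‖(1 - P) a‖ ^ 2 := by positivity
  have e2 : 0 ≤ ‖(1 - P') a‖ ^ 2 := by positivity
  nlinarith

/-! ## Descent -/

section Descent

variable {ι : Type*} [Fintype ι]

/-- `f x = ∑ ‖Q i x‖²`. -/
noncomputable def en (Q : ι → H →L[ℂ] H) (x : H) : ℝ := ∑ i, ‖Q i x‖ ^ 2

theorem en_nonneg (Q : ι → H →L[ℂ] H) (x : H) : 0 ≤ en Q x := by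
  unfold en
  positivity

/-- the Laplacian -/
noncomputable def lap (Q : ι → H →L[ℂ] H) : H →L[ℂ] H := ∑ i, Q i

theorem lap_apply (Q : ι → H →L[ℂ] H) (x : H) : lap Q x = ∑ i, Q i x := by
  simp [lap]

theorem re_inner_lap {Q : ι → H →L[ℂ] H} (hQ : ∀ i, IsProj (Q i)) (x : H) :
    (⟪lap Q x, x⟫_ℂ).re = en Q x := by
  rw [lap_apply, sum_inner, Complex.re_sum, en]
  exact Finset.sum_congr rfl fun i _ => (hQ i).re_inner_self x

theorem lap_symm {Q : ι → H →L[ℂ] H} (hQ : ∀ i, IsProj (Q i)) (x y : H) :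
    ⟪lap Q x, y⟫_ℂ = ⟪x, lap Q y⟫_ℂ := by
  rw [lap_apply, lap_apply, sum_inner, inner_sum]
  exact Finset.sum_congr rfl fun i _ => (hQ i).symm x y

theorem norm_lap_sq_le {Q : ι → H →L[ℂ] H} (x : H) :
    ‖lap Q x‖ ^ 2 ≤ Fintype.card ι * en Q x := by
  rw [lap_apply]
  have h1 : ‖∑ i, Q i x‖ ≤ ∑ i, ‖Q i x‖ := norm_sum_le _ _
  have h2 : (∑ i, ‖Q i x‖) ^ 2 ≤ (Finset.univ : Finset ι).card * ∑ i, ‖Q i x‖ ^ 2 :=
    sq_sum_le_card_mul_sum_sq
  calc ‖∑ i, Q i x‖ ^ 2 ≤ (∑ i, ‖Q i x‖) ^ 2 := by gcongr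
    _ ≤ _ := h2

theorem en_le_card {Q : ι → H →L[ℂ] H} (hQ : ∀ i, IsProj (Q i)) (x : H) :
    en Q x ≤ Fintype.card ι * ‖x‖ ^ 2 := by
  unfold en
  calc ∑ i, ‖Q i x‖ ^ 2 ≤ ∑ _i : ι, ‖x‖ ^ 2 := by
        apply Finset.sum_le_sum
        intro i _
        have := (hQ i).compl.norm_sq_compl x
        have e : (1 - (1 - Q i)) x = Q i x := by simp
        rw [e] at this
        rw [this]
        have : 0 ≤ ‖(1 - Q i) x‖ ^ 2 := by positivity
        linarith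
    _ = _ := by simp

/-- lower bound for the Laplacian -/
theorem norm_lap_sq_ge {Q : ι → H →L[ℂ] H} {ε : ℝ}
    (hpair : ∀ i j, i ≠ j → ∀ x, -ε * (‖Q i x‖ ^ 2 + ‖Q j x‖ ^ 2) ≤ 2 * (⟪Q i x, Q j x⟫_ℂ).re)
    (x : H) : (1 - (Fintype.card ι - 1) * ε) * en Q x ≤ ‖lap Q x‖ ^ 2 := by
  classical
  have h1 : ‖lap Q x‖ ^ 2 = ∑ i, ∑ j, (⟪Q i x, Q j x⟫_ℂ).re := by
    have := inner_self_eq_norm_sq (𝕜 := ℂ) (lap Q x)
    rw [← this, lap_apply, sum_inner]
    simp only [inner_sum]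
    rw [map_sum]
    refine Finset.sum_congr rfl fun i _ => ?_
    rw [map_sum]
    rfl
  have h2 : ∀ i j, (if i = j then ‖Q i x‖ ^ 2 else -ε / 2 * (‖Q i x‖ ^ 2 + ‖Q j x‖ ^ 2)) ≤
      (⟪Q i x, Q j x⟫_ℂ).re := by
    intro i j
    by_cases hij : i = j
    · subst hij
      rw [if_pos rfl]
      exact (inner_self_eq_norm_sq (𝕜 := ℂ) (Q i x)).ge
    · rw [if_neg hij]
      have := hpair i j hij x
      linarith
  rw [h1]
  refine le_trans (le_of_eq ?_) (Finset.sum_le_sum fun i _ => Finset.sum_le_sum fun j _ => h2 i j)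
  have h3 : ∀ i j, (if i = j then ‖Q i x‖ ^ 2 else -ε / 2 * (‖Q i x‖ ^ 2 + ‖Q j x‖ ^ 2)) =
      -ε / 2 * (‖Q i x‖ ^ 2 + ‖Q j x‖ ^ 2) +
        (if i = j then (1 + ε) * ‖Q i x‖ ^ 2 else 0) := by
    intro i j
    by_cases hij : i = j
    · subst hij
      simp only [if_true]
      ring
    · simp [hij]
  simp only [h3, Finset.sum_add_distrib, Finset.sum_ite_eq, Finset.mem_univ, if_true,
    ← Finset.mul_sum, Finset.sum_const, Finset.card_univ, nsmul_eq_mul]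
  unfold en
  ring

variable [CompleteSpace H]

/-- Descent: almost fixed vectors are close to fixed vectors. -/
theorem exists_fixed {Q : ι → H →L[ℂ] H} (hQ : ∀ i, IsProj (Q i)) {lam : ℝ} (hlam : 0 < lam)
    (hlam1 : lam ≤ Fintype.card ι) (hgap : ∀ x, lam * en Q x ≤ ‖lap Q x‖ ^ 2) (x : H)
    (hx : en Q x < Fintype.card ι * (1 - Real.sqrt (1 - lam / Fintype.card ι)) ^ 2 * ‖x‖ ^ 2) :
    ∃ y : H, y ≠ 0 ∧ ∀ i, Q i y = 0 := by
  set n : ℝ := (Fintype.card ι : ℝ) with hn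
  have hnpos : 0 < n := hlam.trans_le hlam1
  set c : ℝ := 1 - lam / n with hc
  have hc0 : 0 ≤ c := by
    have : lam / n ≤ 1 := (div_le_one hnpos).mpr hlam1
    rw [hc]
    linarith
  have hc1 : c < 1 := by
    have : 0 < lam / n := by positivity
    rw [hc]
    linarith
  set r : ℝ := Real.sqrt c with hr
  have hr0 : 0 ≤ r := Real.sqrt_nonneg _
  have hr1 : r < 1 := by
    rw [hr, Real.sqrt_lt' one_pos]
    simpa using hc1
  have hrr : r * r = c := Real.mul_self_sqrt hc0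
  -- one step
  have hstep : ∀ y : H, en Q (y - ((n⁻¹ : ℝ) : ℂ) • lap Q y) ≤ c * en Q y := by
    intro y
    set η := lap Q y with hη
    have e1 : ∀ z : H, en Q z = (⟪lap Q z, z⟫_ℂ).re := fun z => (re_inner_lap hQ z).symm
    have h1 : en Q (y - ((n⁻¹ : ℝ) : ℂ) • η) = en Q y - 2 * n⁻¹ * ‖η‖ ^ 2 + n⁻¹ ^ 2 * en Q η := by
      rw [e1 (y - ((n⁻¹ : ℝ) : ℂ) • η), map_sub, map_smul, inner_sub_left, inner_sub_right,
        inner_sub_right, inner_smul_left, inner_smul_right, inner_smul_left, inner_smul_right,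
        Complex.conj_ofReal, lap_symm hQ η y, ← hη, e1 y, e1 η, ← hη]
      have h2 : ⟪η, η⟫_ℂ = ((‖η‖ ^ 2 : ℝ) : ℂ) := by
        rw [inner_self_eq_norm_sq_to_K]
        norm_cast
      rw [h2]
      simp only [Complex.sub_re, Complex.mul_re, Complex.ofReal_re, Complex.ofReal_im]
      ring
    rw [h1]
    have h3 := en_le_card hQ η
    have h4 := hgap y
    rw [← hη] at h4
    have h5 : n⁻¹ ^ 2 * en Q η ≤ n⁻¹ * ‖η‖ ^ 2 := by
      calc n⁻¹ ^ 2 * en Q η ≤ n⁻¹ ^ 2 * (n * ‖η‖ ^ 2) := by gcongr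
        _ = n⁻¹ * ‖η‖ ^ 2 := by field_simp
    have h6 : n⁻¹ * (lam * en Q y) ≤ n⁻¹ * ‖η‖ ^ 2 := by gcongr
    have h7 : c * en Q y = en Q y - n⁻¹ * (lam * en Q y) := by
      rw [hc]
      field_simp
    rw [h7]
    linarith
  -- the sequence
  set T : H → H := fun y => y - ((n⁻¹ : ℝ) : ℂ) • lap Q y with hT
  set s : ℕ → H := fun k => T^[k] x with hs
  have hs_succ : ∀ k, s (k + 1) = T (s k) := fun k => by
    simp only [hs, Function.iterate_succ_apply']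
  have hen : ∀ k, en Q (s k) ≤ c ^ k * en Q x := by
    intro k
    induction k with
    | zero => simp [hs]
    | succ k ih =>
      rw [hs_succ]
      calc en Q (T (s k)) ≤ c * en Q (s k) := hstep _
        _ ≤ c * (c ^ k * en Q x) := by gcongr
        _ = _ := by ring
  set C : ℝ := Real.sqrt (en Q x / n) with hC
  have hdist : ∀ k, dist (s k) (s (k + 1)) ≤ C * r ^ k := by
    intro k
    rw [hs_succ, dist_eq_norm]
    have : s k - T (s k) = ((n⁻¹ : ℝ) : ℂ) • lap Q (s k) := by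
      simp only [hT]
      abel
    rw [this, norm_smul, Complex.norm_real, Real.norm_of_nonneg (by positivity)]
    rw [← sq_le_sq₀ (by positivity) (by positivity)]
    calc (n⁻¹ * ‖lap Q (s k)‖) ^ 2 = n⁻¹ ^ 2 * ‖lap Q (s k)‖ ^ 2 := by ring
      _ ≤ n⁻¹ ^ 2 * (n * en Q (s k)) := by
        gcongr
        exact norm_lap_sq_le _
      _ = n⁻¹ * en Q (s k) := by field_simp
      _ ≤ n⁻¹ * (c ^ k * en Q x) := by
        gcongr
        exact hen k
      _ = (C * r ^ k) ^ 2 := by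
        have h1 : C ^ 2 = en Q x / n := Real.sq_sqrt (div_nonneg (en_nonneg _ _) hnpos.le)
        rw [mul_pow, h1, ← pow_mul, mul_comm k 2, pow_mul, sq r, hrr]
        field_simp
  have hcau := cauchySeq_of_le_geometric r C hr1 hdist
  obtain ⟨y, hy⟩ := cauchySeq_tendsto_of_complete hcau
  have hdist0 := dist_le_of_le_geometric_of_tendsto₀ r C hr1 hdist hy
  have hs0 : s 0 = x := rfl
  rw [hs0] at hdist0
  have henc : Continuous (en Q) := by
    unfold en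
    fun_prop
  have heny : en Q y ≤ 0 := by
    have h1 : Filter.Tendsto (fun k => en Q (s k)) Filter.atTop (nhds (en Q y)) :=
      (henc.tendsto y).comp hy
    have h2 : Filter.Tendsto (fun k => c ^ k * en Q x) Filter.atTop (nhds (0 * en Q x)) :=
      (tendsto_pow_atTop_nhds_zero_of_lt_one hc0 hc1).mul_const _
    rw [zero_mul] at h2
    exact le_of_tendsto_of_tendsto' h1 h2 hen
  refine ⟨y, ?_, ?_⟩
  · rintro rfl
    rw [dist_zero_right] at hdist0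
    -- `‖x‖ ≤ C / (1 - r)`
    have h1 : (‖x‖ * (1 - r)) ^ 2 ≤ C ^ 2 := by
      have : ‖x‖ * (1 - r) ≤ C := by
        rwa [le_div_iff₀ (by linarith)] at hdist0
      have h0 : 0 ≤ ‖x‖ * (1 - r) := mul_nonneg (norm_nonneg _) (by linarith)
      gcongr
    have h2 : C ^ 2 = en Q x / n := Real.sq_sqrt (div_nonneg (en_nonneg _ _) hnpos.le)
    rw [h2, le_div_iff₀ hnpos] at h1
    nlinarith
  · intro i
    have h0 : en Q y = 0 := le_antisymm heny (en_nonneg _ _)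
    unfold en at h0
    have := (Finset.sum_eq_zero_iff_of_nonneg (fun i _ => by positivity)).mp h0 i
      (Finset.mem_univ i)
    simpa using this

end Descent

end Projections

end Pool.Agent.H9.Criterion
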