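import Pool.Agent.H9.Mealy

/-!
# Affine maps of `K ^ 4`: elementary matrices and translations
-/

namespace Pool.Agent.H9.Letters

open Equiv Pool.Agent.H9.Mealy

variable {K : Type*} [CommRing K]

/-- letters -/
abbrev L (K : Type*) := Fin 4 → K

/-- elementary matrix `x_i ↦ x_i + a x_j` -/
def e (i j : Fin 4) (h : i ≠ j) (a : K) : Perm (L K) where
  toFun x := Function.update x i (x i + a * x j)
  invFun x := Function.update x i (x i - a * x j)
  left_inv x := by
    simp [Function.update_of_ne h.symm]
  right_inv x := by
    simp [Function.update_of_ne h.symm]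

/-- translation `x_i ↦ x_i + a` -/
def t (i : Fin 4) (a : K) : Perm (L K) where
  toFun x := Function.update x i (x i + a)
  invFun x := Function.update x i (x i - a)
  left_inv x := by simp
  right_inv x := by simp

theorem e_apply (i j : Fin 4) (h : i ≠ j) (a : K) (x : L K) :
    e i j h a x = Function.update x i (x i + a * x j) := rfl

theorem t_apply (i : Fin 4) (a : K) (x : L K) :
    t i a x = Function.update x i (x i + a) := rfl

theorem e_same {i j : Fin 4} (h : i ≠ j) (a : K) (x : L K) : e i j h a x i = x i + a * x j := by
  simp [e_apply]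

theorem e_other {i j k : Fin 4} (h : i ≠ j) (hk : k ≠ i) (a : K) (x : L K) :
    e i j h a x k = x k := by
  simp [e_apply, hk]

theorem t_same (i : Fin 4) (a : K) (x : L K) : t i a x i = x i + a := by
  simp [t_apply]

theorem t_other {i k : Fin 4} (hk : k ≠ i) (a : K) (x : L K) : t i a x k = x k := by
  simp [t_apply, hk]

theorem e_hom {i j : Fin 4} (h : i ≠ j) : IsHom (e (K := K) i j h) := by
  intro a b
  ext x k
  by_cases hk : k = i
  · subst hk
    rw [Perm.mul_apply, e_same, e_same, e_same, e_other h h.symm]
    ring
  · rw [Perm.mul_apply, e_other h hk, e_other h hk, e_other h hk]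

theorem t_hom (i : Fin 4) : IsHom (t (K := K) i) := by
  intro a b
  ext x k
  by_cases hk : k = i
  · subst hk
    rw [Perm.mul_apply, t_same, t_same, t_same]
    ring
  · rw [Perm.mul_apply, t_other hk, t_other hk, t_other hk]

/-- elementary matrices commute if `i ≠ l` and `k ≠ j` -/
theorem e_comm {i j k l : Fin 4} (h : i ≠ j) (h' : k ≠ l) (hil : i ≠ l) (hkj : k ≠ j) (a b : K) :
    e i j h a * e k l h' b = e k l h' b * e i j h a := by
  ext x m
  rw [Perm.mul_apply, Perm.mul_apply]
  by_cases hmi : m = i
  · subst hmi
    rw [e_same, e_other h' hkj.symm]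
    by_cases hmk : m = k
    · subst hmk
      rw [e_same h', e_same h', e_same h, e_other h h'.symm]
      ring
    · rw [e_other h' hmk, e_other h' hmk, e_same]
  · rw [e_other h hmi]
    by_cases hmk : m = k
    · subst hmk
      rw [e_same, e_same, e_other h hmi, e_other h hil.symm]
    · rw [e_other h' hmk, e_other h' hmk, e_other h hmi]

/-- the commutator relation -/
theorem e_heis {i j k : Fin 4} (hij : i ≠ j) (hjk : j ≠ k) (hik : i ≠ k) (a b : K) :
    e i j hij a * e j k hjk b = e j k hjk b * e i j hij a * e i k hik (a * b) := by
  ext x m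
  rw [Perm.mul_apply, Perm.mul_apply, Perm.mul_apply]
  by_cases hmi : m = i
  · subst hmi
    rw [e_same, e_same, e_other hjk hij, e_other hjk hij, e_same, e_same, e_other hik hij.symm]
    ring
  · rw [e_other hij hmi]
    by_cases hmj : m = j
    · subst hmj
      rw [e_same, e_same, e_other hij hij.symm, e_other hik hij.symm, e_other hij hik.symm,
        e_other hik hik.symm]
    · rw [e_other hjk hmj, e_other hjk hmj, e_other hij hmi, e_other hik hmi]

/-- translations and elementary matrices commute if `i ≠ l` -/
theorem t_e_comm {i k l : Fin 4} (h : k ≠ l) (hil : i ≠ l) (a b : K) :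
    t i a * e k l h b = e k l h b * t i a := by
  ext x m
  rw [Perm.mul_apply, Perm.mul_apply]
  by_cases hmi : m = i
  · subst hmi
    rw [t_same]
    by_cases hmk : m = k
    · subst hmk
      rw [e_same, e_same, t_same, t_other hil.symm]
      ring
    · rw [e_other h hmk, e_other h hmk, t_same]
  · rw [t_other hmi]
    by_cases hmk : m = k
    · subst hmk
      rw [e_same, e_same, t_other hmi, t_other hil.symm]
    · rw [e_other h hmk, e_other h hmk, t_other hmi]

/-- the commutator relation with translations -/
theorem e_t_heis {i j : Fin 4} (h : i ≠ j) (a b : K) :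
    e i j h a * t j b = t j b * e i j h a * t i (a * b) := by
  ext x m
  rw [Perm.mul_apply, Perm.mul_apply, Perm.mul_apply]
  by_cases hmi : m = i
  · subst hmi
    rw [e_same, t_same, t_other h, t_other h, e_same, t_same, t_other h.symm]
    ring
  · rw [e_other h hmi]
    by_cases hmj : m = j
    · subst hmj
      rw [t_same, t_same, e_other h h.symm, t_other h.symm]
    · rw [t_other hmj, t_other hmj, e_other h hmi, t_other hmi]

theorem t_comm (i j : Fin 4) (a b : K) : t i a * t j b = t j b * t i a := by
  ext x m
  rw [Perm.mul_apply, Perm.mul_apply]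
  by_cases hmi : m = i
  · subst hmi
    rw [t_same]
    by_cases hmj : m = j
    · subst hmj
      rw [t_same, t_same, t_same]
      ring
    · rw [t_other hmj, t_other hmj, t_same]
  · rw [t_other hmi]
    by_cases hmj : m = j
    · subst hmj
      rw [t_same, t_same, t_other hmi]
    · rw [t_other hmj, t_other hmj, t_other hmi]

end Pool.Agent.H9.Letters
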