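import Mathlib

/-!
# Tree automorphisms as permutations of words
-/

namespace Pool.Agent.H9.Mealy

open Equiv

variable {X : Type*}

/-- action on words: `σ` on the first letter, `f x` on the rest -/
def nodeFun (σ : X → X) (f : X → List X → List X) : List X → List X
  | [] => []
  | x :: w => σ x :: f x w

/-- wreath recursion -/
def node (σ : Perm X) (f : X → Perm (List X)) : Perm (List X) where
  toFun := nodeFun σ (fun x => f x)
  invFun := nodeFun σ.symm (fun y => (f (σ.symm y)).symm)
  left_inv := by
    intro w
    cases w <;> simp [nodeFun]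
  right_inv := by
    intro w
    cases w <;> simp [nodeFun]

@[simp] theorem node_nil (σ : Perm X) (f : X → Perm (List X)) : node σ f [] = [] := rfl

@[simp] theorem node_cons (σ : Perm X) (f : X → Perm (List X)) (x : X) (w : List X) :
    node σ f (x :: w) = σ x :: f x w := rfl

theorem node_mul (σ τ : Perm X) (f g : X → Perm (List X)) :
    node σ f * node τ g = node (σ * τ) (fun x => f (τ x) * g x) := by
  ext1 w
  cases w <;> simp

theorem node_one : node (1 : Perm X) (fun _ => 1) = 1 := by
  ext1 w
  cases w <;> simp

theorem node_inv (σ : Perm X) (f : X → Perm (List X)) :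
    (node σ f)⁻¹ = node σ⁻¹ (fun y => (f (σ⁻¹ y))⁻¹) := by
  rw [inv_eq_iff_mul_eq_one, node_mul]
  rw [← node_one]
  congr 1
  · simp
  · funext y
    simp

/-- rooted automorphisms -/
def root : Perm X →* Perm (List X) where
  toFun σ := node σ (fun _ => 1)
  map_one' := node_one
  map_mul' σ τ := by
    rw [node_mul]
    simp

/-- automorphisms fixing the first letter -/
def sec : (X → Perm (List X)) →* Perm (List X) where
  toFun f := node 1 f
  map_one' := node_one
  map_mul' f g := by
    rw [node_mul]
    rfl

theorem root_apply (σ : Perm X) : root σ = node σ (fun _ => 1) := rfl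

theorem sec_apply (f : X → Perm (List X)) : sec f = node 1 f := rfl

theorem root_mul_sec (σ : Perm X) (f : X → Perm (List X)) : root σ * sec f = node σ f := by
  rw [root_apply, sec_apply, node_mul]
  simp

theorem sec_conj_root (σ : Perm X) (f : X → Perm (List X)) :
    (root σ)⁻¹ * sec f * root σ = sec (fun x => f (σ x)) := by
  rw [← map_inv, root_apply, root_apply, sec_apply, sec_apply, node_mul, node_mul]
  simp

/-- The permutations defined by an invertible Mealy automaton. -/
def mealyFun {Q : Type*} (out : Q → X → X) (tr : Q → X → Q) : List X → Q → List X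
  | [], _ => []
  | x :: w, q => out q x :: mealyFun out tr w (tr q x)

/-- The permutations defined by an invertible Mealy automaton. -/
def mealy {Q : Type*} (out : Q → Perm X) (tr : Q → X → Q) (q : Q) : Perm (List X) where
  toFun w := mealyFun (fun q => out q) tr w q
  invFun w := mealyFun (fun q => (out q).symm) (fun q y => tr q ((out q).symm y)) w q
  left_inv := by
    intro w
    induction w generalizing q with
    | nil => rfl
    | cons x w ih => simp [mealyFun, ih]
  right_inv := by
    intro w
    induction w generalizing q with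
    | nil => rfl
    | cons x w ih => simp [mealyFun, ih]

theorem mealy_eq {Q : Type*} (out : Q → Perm X) (tr : Q → X → Q) (q : Q) :
    mealy out tr q = node (out q) (fun x => mealy out tr (tr q x)) := by
  ext1 w
  cases w <;> rfl

theorem mealy_unique {Q : Type*} {out : Q → Perm X} {tr : Q → X → Q} {F : Q → Perm (List X)}
    (hF : ∀ q, F q = node (out q) (fun x => F (tr q x))) (q : Q) : F q = mealy out tr q := by
  ext1 w
  induction w generalizing q with
  | nil => rw [hF, mealy_eq, node_nil, node_nil]
  | cons x w ih => rw [hF, mealy_eq, node_cons, node_cons, ih]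

/-- two families satisfying the same recursion agree -/
theorem family_ext {Q : Type*} {out : Q → Perm X} {tr : Q → X → Q} {F F' : Q → Perm (List X)}
    (hF : ∀ q, F q = node (out q) (fun x => F (tr q x)))
    (hF' : ∀ q, F' q = node (out q) (fun x => F' (tr q x))) (q : Q) : F q = F' q :=
  (mealy_unique hF q).trans (mealy_unique hF' q).symm

/-! ## The automata used here -/

variable {K : Type*} [CommRing K]

/-- The automaton with states `q : K`, output `φ q` and transition `q ↦ κ q + λ x`. -/
def M (κ : K) (lam : X → K) (φ : K → Perm X) (q : K) : Perm (List X) :=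
  mealy φ (fun q x => κ * q + lam x) q

theorem M_eq (κ : K) (lam : X → K) (φ : K → Perm X) (q : K) :
    M κ lam φ q = node (φ q) (fun x => M κ lam φ (κ * q + lam x)) := mealy_eq _ _ _

theorem M_ext {κ : K} {lam : X → K} {φ : K → Perm X} {F : K → Perm (List X)}
    (hF : ∀ q, F q = node (φ q) (fun x => F (κ * q + lam x))) (q : K) : F q = M κ lam φ q :=
  mealy_unique hF q

/-- the letterwise action -/
def hat (σ : Perm X) : Perm (List X) := mealy (fun _ : Unit => σ) (fun _ _ => ()) ()

theorem hat_eq (σ : Perm X) : hat σ = node σ (fun _ => hat σ) := mealy_eq _ _ _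

theorem hat_unique {σ : Perm X} {g : Perm (List X)} (h : g = node σ (fun _ => g)) : g = hat σ :=
  mealy_unique (F := fun _ : Unit => g) (out := fun _ => σ) (tr := fun _ _ => ())
    (fun _ => h) ()

theorem hat_one : hat (1 : Perm X) = 1 := by
  symm
  apply hat_unique
  exact node_one.symm

theorem hat_mul (σ τ : Perm X) : hat (σ * τ) = hat σ * hat τ := by
  symm
  apply hat_unique
  conv_lhs => rw [hat_eq σ, hat_eq τ, node_mul]

theorem hat_inv (σ : Perm X) : hat σ⁻¹ = (hat σ)⁻¹ := by
  rw [eq_inv_iff_mul_eq_one, ← hat_mul, inv_mul_cancel, hat_one]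

theorem hat_eq_root_mul (σ : Perm X) : hat σ = root σ * sec (fun _ => hat σ) := by
  rw [root_mul_sec]
  exact hat_eq σ

theorem hat_conj_root (g σ : Perm X) : hat g * root σ * (hat g)⁻¹ = root (g * σ * g⁻¹) := by
  rw [← hat_inv, hat_eq g, hat_eq g⁻¹, root_apply, root_apply, node_mul, node_mul]
  congr 1
  funext x
  rw [mul_one, hat_inv, mul_inv_cancel]

/-- hom property for output families -/
def IsHom (φ : K → Perm X) : Prop := ∀ a b, φ (a + b) = φ a * φ b

theorem IsHom.zero {φ : K → Perm X} (h : IsHom φ) : φ 0 = 1 := by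
  have := h 0 0
  rw [add_zero] at this
  exact mul_eq_left.mp this.symm

theorem IsHom.comm {φ : K → Perm X} (h : IsHom φ) (a b : K) : φ a * φ b = φ b * φ a := by
  rw [← h, ← h, add_comm]

/-- `M` is additive in `(λ, q)`. -/
theorem M_mul {κ : K} {lam lam' : X → K} {φ : K → Perm X} (hφ : IsHom φ)
    (hlam : ∀ c x, lam (φ c x) = lam x) (q q' : K) :
    M κ lam φ q * M κ lam' φ q' = M κ (fun x => lam x + lam' x) φ (q + q') := by
  have key : ∀ r : K × K, M κ lam φ r.1 * M κ lam' φ r.2 =
      M κ (fun x => lam x + lam' x) φ (r.1 + r.2) := by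
    apply family_ext (out := fun r : K × K => φ (r.1 + r.2))
      (tr := fun r x => (κ * r.1 + lam x, κ * r.2 + lam' x))
    · intro r
      rw [M_eq, M_eq κ lam', node_mul, hφ]
      simp only [hlam]
    · intro r
      rw [M_eq]
      congr 1
      funext x
      congr 1
      ring
  exact key (q, q')

theorem M_zero_zero {κ : K} {φ : K → Perm X} (hφ : IsHom φ) : M κ (fun _ => 0) φ 0 = 1 := by
  have key : ∀ u : Unit, (fun _ : Unit => M κ (fun _ => 0) φ 0) u = (fun _ : Unit => 1) u := by
    apply family_ext (out := fun _ => 1) (tr := fun _ _ => ())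
    · intro _
      conv_lhs => rw [M_eq, hφ.zero]
      simp
    · intro _
      exact node_one.symm
  exact key ()

/-- conjugation by the letterwise action -/
theorem M_conj (g : Perm X) (κ : K) (lam : X → K) (φ : K → Perm X) (q : K) :
    hat g * M κ lam φ q * (hat g)⁻¹ =
      M κ (fun x => lam (g⁻¹ x)) (fun c => g * φ c * g⁻¹) q := by
  refine M_ext (F := fun q => hat g * M κ lam φ q * (hat g)⁻¹) ?_ q
  intro q
  conv_lhs => rw [← hat_inv, hat_eq g, M_eq, hat_eq g⁻¹, node_mul, node_mul]
  simp only [hat_inv, mul_assoc]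

/-- `M` is multiplicative in `φ`. -/
theorem M_mul_out {κ : K} {lam : X → K} {φ φ' : K → Perm X}
    (hlam : ∀ c x, lam (φ' c x) = lam x) (q : K) :
    M κ lam φ q * M κ lam φ' q = M κ lam (fun c => φ c * φ' c) q := by
  refine M_ext (F := fun q => M κ lam φ q * M κ lam φ' q) ?_ q
  intro q
  conv_lhs => rw [M_eq, M_eq κ lam φ', node_mul]
  simp only [hlam]

/-- reparametrization -/
theorem M_scale {κ : K} {lam : X → K} {φ : K → Perm X} (a q : K) :
    M κ lam (fun c => φ (a * c)) q = M κ (fun x => a * lam x) φ (a * q) := by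
  symm
  refine M_ext (F := fun q => M κ (fun x => a * lam x) φ (a * q)) ?_ q
  intro q
  conv_lhs => rw [M_eq]
  congr 1
  funext x
  congr 1
  ring

/-- commuting automata -/
theorem M_comm {κ κ' : K} {lam lam' : X → K} {φ φ' : K → Perm X}
    (hc : ∀ a b, φ a * φ' b = φ' b * φ a)
    (hlam : ∀ c x, lam (φ' c x) = lam x) (hlam' : ∀ c x, lam' (φ c x) = lam' x) (q q' : K) :
    M κ lam φ q * M κ' lam' φ' q' = M κ' lam' φ' q' * M κ lam φ q := by
  have key : ∀ r : K × K, M κ lam φ r.1 * M κ' lam' φ' r.2 =
      M κ' lam' φ' r.2 * M κ lam φ r.1 := by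
    apply family_ext (out := fun r : K × K => φ r.1 * φ' r.2)
      (tr := fun r x => (κ * r.1 + lam x, κ' * r.2 + lam' x))
    · intro r
      conv_lhs => rw [M_eq, M_eq κ' lam', node_mul]
      simp only [hlam]
    · intro r
      conv_lhs => rw [M_eq, M_eq κ lam, node_mul, ← hc]
      simp only [hlam']
  exact key (q, q')

/-- the letterwise action as an instance of `M` -/
theorem hat_eq_M {φ : K → Perm X} (q : K) : hat (φ q) = M 1 (fun _ => 0) φ q := by
  symm
  apply hat_unique
  conv_lhs => rw [M_eq]
  simp

/-- the rooted action as an instance of `M` -/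
theorem root_eq_M {φ : K → Perm X} (hφ : IsHom φ) (q : K) :
    root (φ q) = M 0 (fun _ => 0) φ q := by
  rw [M_eq, root_apply]
  congr 1
  funext x
  rw [zero_mul, add_zero, M_zero_zero hφ]

end Pool.Agent.H9.Mealy
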