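import Pool.Agent.H9.Letters

/-!
# The generators and their pairwise relations
-/

namespace Pool.Agent.H9.Pairs

open Equiv Pool.Agent.H9.Mealy Pool.Agent.H9.Letters

variable {K : Type*} [CommRing K] {G : Type*} [Group G]

/-- `u` and `v` are in Heisenberg position with commutators given by `z`. -/
structure Heis (u v z : K → G) : Prop where
  add : ∀ a b, z (a + b) = z a * z b
  left : ∀ a b, u a * z b = z b * u a
  right : ∀ a b, v a * z b = z b * v a
  rel : ∀ a b, u a * v b = v b * u a * z (a * b)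

theorem Heis.of_comm {u v : K → G} (h : ∀ a b, u a * v b = v b * u a) :
    Heis u v (fun _ => 1) where
  add a b := by simp
  left a b := by simp
  right a b := by simp
  rel a b := by rw [mul_one, h]

theorem Heis.symm {u v z : K → G} (h : Heis u v z) : Heis v u (fun c => (z c)⁻¹) where
  add a b := by
    rw [add_comm, h.add, mul_inv_rev]
  left a b := by
    have := h.right a b
    rw [mul_inv_eq_iff_eq_mul, mul_assoc, this, inv_mul_cancel_left]
  right a b := by
    have := h.left a b
    rw [mul_inv_eq_iff_eq_mul, mul_assoc, this, inv_mul_cancel_left]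
  rel a b := by
    rw [h.rel b a, mul_comm b a, mul_inv_cancel_right]

/-- letterwise actions -/
theorem heis_hat_hat {X : Type*} {u v z : K → Perm X} (h : Heis u v z) :
    Heis (fun a => hat (u a)) (fun a => hat (v a)) (fun a => hat (z a)) where
  add a b := by rw [h.add, hat_mul]
  left a b := by rw [← hat_mul, ← hat_mul, h.left]
  right a b := by rw [← hat_mul, ← hat_mul, h.right]
  rel a b := by rw [← hat_mul, ← hat_mul, ← hat_mul, h.rel]

/-- letterwise against rooted -/
theorem heis_hat_root {X : Type*} {u v z : K → Perm X} (h : Heis u v z) :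
    Heis (fun a => hat (u a)) (fun a => root (v a)) (fun a => root (z a)) where
  add a b := by rw [h.add, map_mul]
  left a b := by
    have := hat_conj_root (u a) (z b)
    rw [mul_inv_eq_iff_eq_mul] at this
    rw [this]
    congr 2
    rw [h.left, mul_inv_cancel_right]
  right a b := by rw [← map_mul, ← map_mul, h.right]
  rel a b := by
    have := hat_conj_root (u a) (v b)
    rw [mul_inv_eq_iff_eq_mul] at this
    rw [this]
    have e1 : u a * v b * (u a)⁻¹ = v b * z (a * b) := by
      rw [h.rel, mul_assoc (v b), h.left, mul_assoc, mul_assoc, mul_inv_cancel, mul_one]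
    rw [e1, map_mul, mul_assoc, mul_assoc]
    congr 1
    have := hat_conj_root (u a) (z (a * b))
    rw [mul_inv_eq_iff_eq_mul] at this
    rw [this]
    congr 2
    rw [h.left, mul_inv_cancel_right]

/-- letterwise action changing the output -/
theorem heis_hat_M_out {X : Type*} {κ : K} {lam : X → K} {u φ ψ : K → Perm X}
    (h : Heis u φ ψ) (hu : ∀ c x, lam (u c x) = lam x) (hφ : ∀ c x, lam (φ c x) = lam x)
    (hψ : ∀ c x, lam (ψ c x) = lam x) :
    Heis (fun a => hat (u a)) (fun b => M κ (fun x => b * lam x) φ 0)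
      (fun c => M κ (fun x => c * lam x) ψ 0) := by
  have hu' : ∀ c x, lam ((u c)⁻¹ x) = lam x := by
    intro c x
    change lam ((u c).symm x) = lam x
    rw [← hu c ((u c).symm x), Equiv.apply_symm_apply]
  have hleft : ∀ a b, hat (u a) * M κ (fun x => b * lam x) ψ 0 =
      M κ (fun x => b * lam x) ψ 0 * hat (u a) := by
    intro a b
    rw [← mul_inv_eq_iff_eq_mul, M_conj]
    simp only [hu', h.left, mul_inv_cancel_right]
  refine ⟨?_, hleft, ?_, ?_⟩
  · intro a b
    rw [M_mul (fun a b => h.add a b) (fun c x => by rw [hψ])]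
    simp only [add_mul, add_zero]
  · intro a b
    exact M_comm (fun a b => h.right a b) (fun c x => by rw [hψ]) (fun c x => by rw [hφ]) 0 0
  · intro a b
    rw [mul_assoc, hleft, ← mul_assoc, ← mul_inv_eq_iff_eq_mul, M_conj]
    have e1 : (fun c => u a * φ c * (u a)⁻¹) = fun c => φ c * ψ (a * c) := by
      funext c
      rw [h.rel, mul_assoc (φ c), h.left, mul_assoc, mul_assoc, mul_inv_cancel, mul_one]
    simp only [hu']
    rw [e1, ← M_mul_out (φ := φ) (φ' := fun c => ψ (a * c)) (fun c x => by rw [hψ]),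
      M_scale (φ := ψ) a 0]
    congr 2
    · funext x
      ring
    · rw [mul_zero]

/-- letterwise action changing the transition function -/
theorem heis_hat_M_tr {X : Type*} {κ : K} {lam mu : X → K} {u φ : K → Perm X}
    (hφ : IsHom φ) (h : ∀ a b, u a * φ b = φ b * u a)
    (hu : ∀ a x, lam ((u a)⁻¹ x) = lam x + a * mu x) (hmu : ∀ c x, mu (u c x) = mu x)
    (hφl : ∀ c x, lam (φ c x) = lam x) (hφm : ∀ c x, mu (φ c x) = mu x) :
    Heis (fun a => hat (u a)) (fun b => M κ (fun x => b * lam x) φ 0)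
      (fun c => M κ (fun x => c * mu x) φ 0) := by
  have hu' : ∀ c x, mu ((u c)⁻¹ x) = mu x := by
    intro c x
    change mu ((u c).symm x) = mu x
    rw [← hmu c ((u c).symm x), Equiv.apply_symm_apply]
  have hleft : ∀ a b, hat (u a) * M κ (fun x => b * mu x) φ 0 =
      M κ (fun x => b * mu x) φ 0 * hat (u a) := by
    intro a b
    rw [← mul_inv_eq_iff_eq_mul, M_conj]
    simp only [hu', h, mul_inv_cancel_right]
  refine ⟨?_, hleft, ?_, ?_⟩
  · intro a b
    rw [M_mul hφ (fun c x => by rw [hφm])]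
    simp only [add_mul, add_zero]
  · intro a b
    exact M_comm (fun a b => hφ.comm a b) (fun c x => by rw [hφl]) (fun c x => by rw [hφm]) 0 0
  · intro a b
    rw [mul_assoc, hleft, ← mul_assoc, ← mul_inv_eq_iff_eq_mul, M_conj]
    simp only [hu, h, mul_inv_cancel_right]
    rw [M_mul hφ (fun c x => by rw [hφl])]
    congr 1
    · funext x
      ring
    · rw [add_zero]

/-! ## The generators -/

/-- index set of the generating subgroups -/
inductive Ix
  | T | E0 | E1 | E2 | E3 | D | B
  deriving DecidableEq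

instance : Fintype Ix :=
  ⟨{Ix.T, Ix.E0, Ix.E1, Ix.E2, Ix.E3, Ix.D, Ix.B}, by intro x; cases x <;> simp⟩

theorem card_Ix : Fintype.card Ix = 7 := rfl

/-- the generating one-parameter subgroups -/
def gen : Ix → K → Perm (List (L K))
  | Ix.T => fun a => root (t 0 a)
  | Ix.E0 => fun a => hat (e 0 1 (by decide) a)
  | Ix.E1 => fun a => hat (e 1 2 (by decide) a)
  | Ix.E2 => fun a => hat (e 2 3 (by decide) a)
  | Ix.E3 => fun a => hat (e 3 0 (by decide) a)
  | Ix.D => fun a => M 1 (fun x => a * x 2) (e 0 1 (by decide)) 0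
  | Ix.B => fun a => M 0 (fun x => a * x 1) (t 0) 0

theorem gen_add (i : Ix) (a b : K) : gen i (a + b) = gen i a * gen i b := by
  cases i
  · simp only [gen, t_hom (0 : Fin 4) a b, map_mul]
  · simp only [gen, e_hom (by decide : (0 : Fin 4) ≠ 1) a b, hat_mul]
  · simp only [gen, e_hom (by decide : (1 : Fin 4) ≠ 2) a b, hat_mul]
  · simp only [gen, e_hom (by decide : (2 : Fin 4) ≠ 3) a b, hat_mul]
  · simp only [gen, e_hom (by decide : (3 : Fin 4) ≠ 0) a b, hat_mul]
  · simp only [gen]
    rw [M_mul (e_hom _) (fun c x => by rw [e_other _ (by decide)])]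
    simp only [add_mul, add_zero]
  · simp only [gen]
    rw [M_mul (t_hom _) (fun c x => by rw [t_other (by decide)])]
    simp only [add_mul, add_zero]

theorem e_Heis {i j k : Fin 4} (hij : i ≠ j) (hjk : j ≠ k) (hik : i ≠ k) :
    Heis (e (K := K) i j hij) (e j k hjk) (e i k hik) where
  add := e_hom _
  left a b := e_comm hij hik hik hij a b
  right a b := e_comm hjk hik hjk hik a b
  rel := e_heis hij hjk hik

theorem e_t_Heis {i j : Fin 4} (hij : i ≠ j) :
    Heis (e (K := K) i j hij) (t j) (t i) where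
  add := t_hom _
  left a b := (t_e_comm hij hij b a).symm
  right a b := t_comm _ _ a b
  rel := e_t_heis hij

theorem comm_hat_hat {X : Type*} {σ τ : Perm X} (h : σ * τ = τ * σ) :
    hat σ * hat τ = hat τ * hat σ := by
  rw [← hat_mul, ← hat_mul, h]

theorem comm_root_root {X : Type*} {σ τ : Perm X} (h : σ * τ = τ * σ) :
    root σ * root τ = root τ * root σ := by
  rw [← map_mul, ← map_mul, h]

theorem comm_root_hat {X : Type*} {σ τ : Perm X} (h : σ * τ = τ * σ) :
    root σ * hat τ = hat τ * root σ := by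
  have := hat_conj_root τ σ
  rw [mul_inv_eq_iff_eq_mul] at this
  rw [this, ← h, mul_inv_cancel_right]

theorem comm_root_M {X : Type*} {κ q : K} {lam : X → K} {φ : K → Perm X} {σ : Perm X}
    (h : σ * φ q = φ q * σ) (hlam : ∀ x, lam (σ x) = lam x) :
    root σ * M κ lam φ q = M κ lam φ q * root σ := by
  rw [root_apply, M_eq, node_mul, node_mul, h]
  simp only [hlam, one_mul, mul_one]

theorem comm_hat_M {X : Type*} {κ q : K} {lam : X → K} {φ : K → Perm X} {σ : Perm X}
    (h : ∀ c, σ * φ c = φ c * σ) (hlam : ∀ x, lam (σ x) = lam x) :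
    hat σ * M κ lam φ q = M κ lam φ q * hat σ := by
  have hlam' : ∀ x, lam (σ⁻¹ x) = lam x := by
    intro x
    change lam (σ.symm x) = lam x
    rw [← hlam (σ.symm x), Equiv.apply_symm_apply]
  rw [← mul_inv_eq_iff_eq_mul, M_conj]
  simp only [hlam', h, mul_inv_cancel_right]

/-- abbreviation used in the case analysis -/
def Ok (i j : Ix) : Prop := ∃ z : K → Perm (List (L K)), Heis (gen i) (gen j) z

theorem Ok.symm {i j : Ix} (h : Ok (K := K) i j) : Ok (K := K) j i := by
  obtain ⟨z, hz⟩ := h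
  exact ⟨_, hz.symm⟩

theorem ok_T_E0 : Ok (K := K) Ix.T Ix.E0 :=
  ⟨_, Heis.of_comm fun a b => comm_root_hat (t_e_comm _ (by decide) a b)⟩

theorem ok_T_E1 : Ok (K := K) Ix.T Ix.E1 :=
  ⟨_, Heis.of_comm fun a b => comm_root_hat (t_e_comm _ (by decide) a b)⟩

theorem ok_T_E2 : Ok (K := K) Ix.T Ix.E2 :=
  ⟨_, Heis.of_comm fun a b => comm_root_hat (t_e_comm _ (by decide) a b)⟩

theorem ok_E3_T : Ok (K := K) Ix.E3 Ix.T :=
  ⟨_, heis_hat_root (e_t_Heis (by decide))⟩

theorem ok_T_D : Ok (K := K) Ix.T Ix.D :=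
  ⟨_, Heis.of_comm fun a b => comm_root_M (t_e_comm _ (by decide) a 0) fun x => by
    rw [t_other (by decide)]⟩

theorem ok_T_B : Ok (K := K) Ix.T Ix.B :=
  ⟨_, Heis.of_comm fun a b => comm_root_M (t_comm _ _ a 0) fun x => by
    rw [t_other (by decide)]⟩

theorem ok_E0_E1 : Ok (K := K) Ix.E0 Ix.E1 :=
  ⟨_, heis_hat_hat (e_Heis (by decide) (by decide) (by decide))⟩

theorem ok_E0_E2 : Ok (K := K) Ix.E0 Ix.E2 :=
  ⟨_, Heis.of_comm fun a b => comm_hat_hat (e_comm _ _ (by decide) (by decide) a b)⟩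

theorem ok_E3_E0 : Ok (K := K) Ix.E3 Ix.E0 :=
  ⟨_, heis_hat_hat (e_Heis (by decide) (by decide) (by decide))⟩

theorem ok_E1_E2 : Ok (K := K) Ix.E1 Ix.E2 :=
  ⟨_, heis_hat_hat (e_Heis (by decide) (by decide) (by decide))⟩

theorem ok_E1_E3 : Ok (K := K) Ix.E1 Ix.E3 :=
  ⟨_, Heis.of_comm fun a b => comm_hat_hat (e_comm _ _ (by decide) (by decide) a b)⟩

theorem ok_E2_E3 : Ok (K := K) Ix.E2 Ix.E3 :=
  ⟨_, heis_hat_hat (e_Heis (by decide) (by decide) (by decide))⟩

theorem ok_E0_D : Ok (K := K) Ix.E0 Ix.D :=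
  ⟨_, Heis.of_comm fun a b => comm_hat_M (fun c => e_comm _ _ (by decide) (by decide) a c)
    fun x => by rw [e_other _ (by decide)]⟩

theorem ok_E0_B : Ok (K := K) Ix.E0 Ix.B :=
  ⟨_, Heis.of_comm fun a b => comm_hat_M (fun c => (t_e_comm _ (by decide) c a).symm)
    fun x => by rw [e_other _ (by decide)]⟩

theorem ok_E2_B : Ok (K := K) Ix.E2 Ix.B :=
  ⟨_, Heis.of_comm fun a b => comm_hat_M (fun c => (t_e_comm _ (by decide) c a).symm)
    fun x => by rw [e_other _ (by decide)]⟩

theorem ok_D_B : Ok (K := K) Ix.D Ix.B :=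
  ⟨_, Heis.of_comm fun a b => M_comm (fun c c' => (t_e_comm _ (by decide) c' c).symm)
    (fun c x => by rw [t_other (by decide)]) (fun c x => by rw [e_other _ (by decide)]) 0 0⟩

theorem ok_E1_D : Ok (K := K) Ix.E1 Ix.D :=
  ⟨_, heis_hat_M_out (Heis.symm (e_Heis (i := 0) (j := 1) (k := 2) (by decide) (by decide)
      (by decide)))
    (fun c x => by rw [e_other _ (by decide)]) (fun c x => by rw [e_other _ (by decide)])
    (fun c x => by
      rw [← e_other (i := 0) (j := 2) (k := 2) (by decide) (by decide) c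
        ((e 0 2 (by decide) c)⁻¹ x)]
      change ((e 0 2 _ c) ((e 0 2 _ c).symm x)) 2 = x 2
      rw [Equiv.apply_symm_apply])⟩

theorem ok_E3_D : Ok (K := K) Ix.E3 Ix.D :=
  ⟨_, heis_hat_M_out (e_Heis (i := 3) (j := 0) (k := 1) (by decide) (by decide) (by decide))
    (fun c x => by rw [e_other _ (by decide)]) (fun c x => by rw [e_other _ (by decide)])
    (fun c x => by rw [e_other _ (by decide)])⟩

theorem ok_E3_B : Ok (K := K) Ix.E3 Ix.B :=
  ⟨_, heis_hat_M_out (e_t_Heis (i := 3) (j := 0) (by decide))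
    (fun c x => by rw [e_other _ (by decide)]) (fun c x => by rw [t_other (by decide)])
    (fun c x => by rw [t_other (by decide)])⟩

theorem e_inv_same {i j : Fin 4} (h : i ≠ j) (a : K) (x : L K) :
    (e i j h a)⁻¹ x i = x i + a * (-x j) := by
  change Function.update x i (x i - a * x j) i = _
  rw [Function.update_self]
  ring

theorem ok_E2_D : Ok (K := K) Ix.E2 Ix.D :=
  ⟨_, heis_hat_M_tr (mu := fun x => -x 3) (e_hom _)
    (fun a b => e_comm _ _ (by decide) (by decide) a b)
    (fun a x => e_inv_same _ a x)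
    (fun c x => by rw [e_other _ (by decide)]) (fun c x => by rw [e_other _ (by decide)])
    (fun c x => by rw [e_other _ (by decide)])⟩

theorem ok_E1_B : Ok (K := K) Ix.E1 Ix.B :=
  ⟨_, heis_hat_M_tr (mu := fun x => -x 2) (t_hom _)
    (fun a b => (t_e_comm _ (by decide) b a).symm)
    (fun a x => e_inv_same _ a x)
    (fun c x => by rw [e_other _ (by decide)]) (fun c x => by rw [t_other (by decide)])
    (fun c x => by rw [t_other (by decide)])⟩

/-- every pair of generating subgroups is in Heisenberg position -/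
theorem ok_all (i j : Ix) (hij : i ≠ j) : Ok (K := K) i j := by
  cases i <;> cases j
  · exact absurd rfl hij
  · exact ok_T_E0
  · exact ok_T_E1
  · exact ok_T_E2
  · exact ok_E3_T.symm
  · exact ok_T_D
  · exact ok_T_B
  · exact ok_T_E0.symm
  · exact absurd rfl hij
  · exact ok_E0_E1
  · exact ok_E0_E2
  · exact ok_E3_E0.symm
  · exact ok_E0_D
  · exact ok_E0_B
  · exact ok_T_E1.symm
  · exact ok_E0_E1.symm
  · exact absurd rfl hij
  · exact ok_E1_E2
  · exact ok_E1_E3
  · exact ok_E1_D
  · exact ok_E1_B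
  · exact ok_T_E2.symm
  · exact ok_E0_E2.symm
  · exact ok_E1_E2.symm
  · exact absurd rfl hij
  · exact ok_E2_E3
  · exact ok_E2_D
  · exact ok_E2_B
  · exact ok_E3_T
  · exact ok_E3_E0
  · exact ok_E1_E3.symm
  · exact ok_E2_E3.symm
  · exact absurd rfl hij
  · exact ok_E3_D
  · exact ok_E3_B
  · exact ok_T_D.symm
  · exact ok_E0_D.symm
  · exact ok_E1_D.symm
  · exact ok_E2_D.symm
  · exact ok_E3_D.symm
  · exact absurd rfl hij
  · exact ok_D_B
  · exact ok_T_B.symm
  · exact ok_E0_B.symm
  · exact ok_E1_B.symm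
  · exact ok_E2_B.symm
  · exact ok_E3_B.symm
  · exact ok_D_B.symm
  · exact absurd rfl hij

end Pool.Agent.H9.Pairs
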