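import Pool.Agent.H9.Branch2

/-!
# Self-similarity, level transitivity and rigid stabilizers
-/

namespace Pool.Agent.H9.Branch

open Equiv Pool.Agent.H9.Mealy Pool.Agent.H9.Letters Pool.Agent.H9.Pairs

variable {K : Type*} [Field K] [Fintype K] [DecidableEq K]

/-! ### self-similarity -/

omit [Fintype K] [DecidableEq K] in
theorem M_one_mem {lam : L K → K} {φ : K → Perm (L K)} (hφ : IsHom φ)
    (h0 : M 1 lam φ 0 ∈ Gp K) (h1 : ∀ c, hat (φ c) ∈ Gp K) (q : K) : M 1 lam φ q ∈ Gp K := by
  have := M_one_shift (lam := lam) hφ q 0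
  rw [add_zero] at this
  rw [this]
  exact (Gp K).mul_mem (h1 q) h0

omit [Fintype K] [DecidableEq K] in
theorem M_zero_mem {lam : L K → K} {φ : K → Perm (L K)} (hφ : IsHom φ)
    (h0 : M 0 lam φ 0 ∈ Gp K) (h1 : ∀ c, root (φ c) ∈ Gp K) (q : K) : M 0 lam φ q ∈ Gp K := by
  have := M_zero_shift (lam := lam) hφ q 0
  rw [add_zero] at this
  rw [this]
  exact (Gp K).mul_mem (h1 q) h0

omit [Fintype K] [DecidableEq K] in
theorem exists_node {g : Perm (List (L K))} (hg : g ∈ Gp K) :
    ∃ (σ : Perm (L K)) (f : L K → Perm (List (L K))), (∀ x, f x ∈ Gp K) ∧ g = node σ f := by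
  unfold Gp at hg
  induction hg using Subgroup.closure_induction with
  | mem g hg =>
    obtain ⟨i, a, rfl⟩ := hg
    cases i
    · exact ⟨t 0 a, fun _ => 1, fun _ => (Gp K).one_mem, rfl⟩
    · exact ⟨_, _, fun _ => gen_mem Ix.E0 a, hat_eq _⟩
    · exact ⟨_, _, fun _ => gen_mem Ix.E1 a, hat_eq _⟩
    · exact ⟨_, _, fun _ => gen_mem Ix.E2 a, hat_eq _⟩
    · exact ⟨_, _, fun _ => gen_mem Ix.E3 a, hat_eq _⟩
    · exact ⟨_, _, fun x => M_one_mem (e_hom _) (gen_mem Ix.D a) (fun c => hat_mem _ c) _,
        M_eq _ _ _ _⟩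
    · exact ⟨_, _, fun x => M_zero_mem (t_hom _) (gen_mem Ix.B a) (fun c => root_t_mem _ c) _,
        M_eq _ _ _ _⟩
  | one => exact ⟨1, fun _ => 1, fun _ => (Gp K).one_mem, node_one.symm⟩
  | mul g h _ _ ihg ihh =>
    obtain ⟨σ, f, hf, rfl⟩ := ihg
    obtain ⟨τ, f', hf', rfl⟩ := ihh
    exact ⟨_, _, fun x => (Gp K).mul_mem (hf _) (hf' _), node_mul _ _ _ _⟩
  | inv g _ ih =>
    obtain ⟨σ, f, hf, rfl⟩ := ih
    exact ⟨_, _, fun x => (Gp K).inv_mem (hf _), node_inv _ _⟩

/-! ### tree automorphisms -/

omit [Fintype K] [DecidableEq K] in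
theorem length_eq (w : List (L K)) : ∀ {g : Perm (List (L K))}, g ∈ Gp K →
    (g w).length = w.length := by
  induction w with
  | nil =>
    intro g hg
    obtain ⟨σ, f, _, rfl⟩ := exists_node hg
    rfl
  | cons x w ih =>
    intro g hg
    obtain ⟨σ, f, hf, rfl⟩ := exists_node hg
    rw [node_cons, List.length_cons, List.length_cons, ih (hf x)]

omit [Fintype K] [DecidableEq K] in
theorem dropLast_eq (w : List (L K)) : ∀ {g : Perm (List (L K))}, g ∈ Gp K →
    (g w).dropLast = g w.dropLast := by
  induction w with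
  | nil =>
    intro g hg
    obtain ⟨σ, f, _, rfl⟩ := exists_node hg
    rfl
  | cons x w ih =>
    intro g hg
    obtain ⟨σ, f, hf, rfl⟩ := exists_node hg
    cases w with
    | nil =>
      have h1 : f x [] = [] := by
        have := length_eq [] (hf x)
        exact List.length_eq_zero_iff.mp (by simpa using this)
      rw [node_cons, h1]
      rfl
    | cons y w =>
      have h1 : f x (y :: w) ≠ [] := by
        intro h
        have := length_eq (y :: w) (hf x)
        rw [h] at this
        simp at this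
      rw [node_cons, List.dropLast_cons_of_ne_nil h1, ih (hf x),
        List.dropLast_cons_of_ne_nil (List.cons_ne_nil y w), node_cons]

/-! ### level transitivity -/

omit [Fintype K] [DecidableEq K] in
theorem exists_letter (x y : L K) : ∃ σ : Perm (L K), root σ ∈ Gp K ∧ σ x = y := by
  refine ⟨t 3 (y 3 - x 3) * t 2 (y 2 - x 2) * t 1 (y 1 - x 1) * t 0 (y 0 - x 0), ?_, ?_⟩
  · rw [map_mul, map_mul, map_mul]
    exact (Gp K).mul_mem ((Gp K).mul_mem ((Gp K).mul_mem (root_t_mem _ _) (root_t_mem _ _))
      (root_t_mem _ _)) (root_t_mem _ _)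
  · funext k
    simp only [Perm.mul_apply]
    fin_cases k <;> simp [t_apply]

theorem exists_word (v : List (L K)) : ∀ w : List (L K), v.length = w.length →
    ∃ g ∈ Gp K, g v = w := by
  induction v with
  | nil =>
    intro w hw
    have : w = [] := List.length_eq_zero_iff.mp (by simpa using hw.symm)
    exact ⟨1, (Gp K).one_mem, by rw [this]; rfl⟩
  | cons x v ih =>
    intro w hw
    cases w with
    | nil => simp at hw
    | cons y w =>
      obtain ⟨g, hg, hgv⟩ := ih w (by simpa using hw)
      obtain ⟨σ, hσ, hσx⟩ := exists_letter x y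
      refine ⟨root σ * secAt x g, (Gp K).mul_mem hσ (secAt_mem x hg), ?_⟩
      rw [Perm.mul_apply, secAt_apply, sec_apply, node_cons, Pi.mulSingle_eq_same, root_apply,
        node_cons, hgv, Perm.one_apply, Perm.one_apply, hσx]

/-! ### rigid stabilizers -/

variable (K) in
/-- the subgroup generated by rigid stabilizers of vertices of level `n` -/
def Rist (n : ℕ) : Subgroup (Perm (List (L K))) :=
  Subgroup.closure {g | g ∈ Gp K ∧ ∃ v : List (L K), v.length = n ∧ ∀ u, ¬ v <+: u → g u = u}

theorem secAt_Rist (x : L K) {n : ℕ} {g : Perm (List (L K))} (hg : g ∈ Rist K n) :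
    secAt x g ∈ Rist K (n + 1) := by
  have h1 : Rist K n ≤ (Rist K (n + 1)).comap (secAt x) := by
    unfold Rist
    rw [Subgroup.closure_le]
    rintro g ⟨hg, v, hv, hgv⟩
    apply Subgroup.subset_closure
    refine ⟨secAt_mem x hg, x :: v, by rw [List.length_cons, hv], ?_⟩
    intro u hu
    rw [secAt_apply, sec_apply]
    cases u with
    | nil => rfl
    | cons y u =>
      rw [node_cons]
      by_cases hy : y = x
      · subst hy
        rw [Pi.mulSingle_eq_same, hgv]
        · rfl
        · intro h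
          exact hu ((List.prefix_cons_inj y).mpr h)
      · rw [Pi.mulSingle_eq_of_ne hy]
        rfl
  exact h1 hg

theorem mem_Rist (n : ℕ) : ∀ {g : Perm (List (L K))}, g ∈ Gp K →
    (∀ w : List (L K), w.length = n → g w = w) → g ∈ Rist K n := by
  induction n with
  | zero =>
    intro g hg _
    apply Subgroup.subset_closure
    exact ⟨hg, [], rfl, fun u hu => absurd (List.nil_prefix) hu⟩
  | succ n ih =>
    intro g hg hfix
    obtain ⟨σ, f, hf, rfl⟩ := exists_node hg
    have h1 : σ = 1 := by
      ext1 x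
      have := hfix (x :: List.replicate n x) (by simp)
      rw [node_cons] at this
      exact (List.cons.inj this).1
    have h2 : ∀ x, f x ∈ Rist K n := by
      intro x
      apply ih (hf x)
      intro w hw
      have := hfix (x :: w) (by simp [hw])
      rw [node_cons] at this
      exact (List.cons.inj this).2
    have h3 : f ∈ (Rist K (n + 1)).comap sec := by
      apply Subgroup.pi_mem_of_mulSingle_mem
      intro x
      exact secAt_Rist x (h2 x)
    rw [h1]
    exact h3

end Pool.Agent.H9.Branch
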